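import Pool.Agent.W_7d29a1_HL.Main

/-!
MP_7d29a1_pr, TRACK H, part 4: THEOREM (SL) at the tilt `s`, the form used for the crossings. (Model: `W_7d29a1_SL.Hsl`.)
-/

set_option autoImplicit false

namespace Pool.Agent.W_7d29a1_HL

open MeasureTheory ProbabilityTheory Filter Topology
open Pool.Agent.W_7d29a1_F Pool.Agent.W_7d29a1_h4g Pool.Agent.W_7d29a1_H Pool.Agent.W_7d29a1_HS

variable {μ : Measure ℝ} [IsProbabilityMeasure μ] {s c C : ℝ} {n₀ : ℕ}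

/-- The slope `EE / wd` decreases by any factor in boundedly many octaves. -/
theorem hsl (h : In μ s c C n₀) (B : ℝ) : ∃ J n₁ : ℕ, ∀ m d : ℕ, n₁ ≤ d → 2 ^ J * d ≤ m →
    B * EE μ s m * wd μ s d ≤ EE μ s d * wd μ s m := by
  obtain ⟨C₁, c₁, n₃, hC₁, hc₁, hc₁', hSL⟩ := Pool.Agent.W_7d29a1_HL.sl h
  -- the ratio of the widths which is needed
  obtain ⟨B', hB'⟩ : ∃ B' : ℝ, B' = max B 1 := ⟨_, rfl⟩
  have hB1 : 1 ≤ B' := hB' ▸ le_max_right _ _
  have hBB : B ≤ B' := hB' ▸ le_max_left _ _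
  obtain ⟨Y, hY⟩ : ∃ Y : ℝ, Y = (C₁ * B') ^ (1 / c₁) := ⟨_, rfl⟩
  have hCB : 0 < C₁ * B' := mul_pos hC₁ (by linarith)
  have hY0 : 0 < Y := hY ▸ Real.rpow_pos_of_pos hCB _
  obtain ⟨J, nJ, hJ⟩ := scale_a h (2 * Y)
  obtain ⟨nW, hW⟩ := wd_growth h
  obtain ⟨nV, hV⟩ := (tendsto_atTop.1 (wd_tendsto h) 1).exists_forall_of_atTop
  refine ⟨J, nJ + nW + nV + n₃, fun m d hd hdm => ?_⟩
  have hdm' : d ≤ m := by
    have : 1 * d ≤ 2 ^ J * d := Nat.mul_le_mul_right d Nat.one_le_two_pow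
    omega
  have h1 := hJ d m (by omega) hdm
  have h2 := hW d m (by omega) hdm'
  have hwd : 0 < wd μ s d := lt_of_lt_of_le one_pos (hV d (by omega))
  have hwm : 0 < wd μ s m := lt_of_lt_of_le one_pos (hV m (by omega))
  have hEd := EE_pos (μ := μ) (s := s) d
  have hEm := EE_pos (μ := μ) (s := s) m
  have h3 : Y ≤ wd μ s m / wd μ s d := by
    rw [le_div_iff₀ hwd]
    have h4 : wd μ s d * (2 * Y * EE μ s d) ≤ 2 * EE μ s d * wd μ s m := (mul_le_mul_of_nonneg_left h1 hwd.le).trans h2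
    have h5 : (Y * wd μ s d) * (2 * EE μ s d) ≤ wd μ s m * (2 * EE μ s d) := by linarith
    exact le_of_mul_le_mul_right h5 (by positivity)
  have h4 := hSL d m (by omega) hdm'
  obtain ⟨q, hq⟩ : ∃ q : ℝ, q = wd μ s m / wd μ s d := ⟨_, rfl⟩
  rw [← hq] at h3 h4
  have hq0 : 0 < q := hY0.trans_le h3
  have h5 : C₁ * B' ≤ q ^ c₁ := by
    have h6 : Y ^ c₁ = C₁ * B' := by
      rw [hY, ← Real.rpow_mul hCB.le, one_div_mul_cancel hc₁.ne', Real.rpow_one]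
    rw [← h6]
    exact Real.rpow_le_rpow hY0.le h3 hc₁.le
  have h6 : q ^ (1 - c₁) * q ^ c₁ = q := by
    rw [← Real.rpow_add hq0]
    simp
  have h7 : B' * (C₁ * q ^ (1 - c₁)) ≤ q := by
    calc B' * (C₁ * q ^ (1 - c₁)) = q ^ (1 - c₁) * (C₁ * B') := by ring
      _ ≤ q ^ (1 - c₁) * q ^ c₁ := mul_le_mul_of_nonneg_left h5 (Real.rpow_nonneg hq0.le _)
      _ = q := h6
  have h8 : q * wd μ s d = wd μ s m := by
    rw [hq, div_mul_cancel₀ _ hwd.ne']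
  calc B * EE μ s m * wd μ s d ≤ B' * EE μ s m * wd μ s d := by
        refine mul_le_mul_of_nonneg_right (mul_le_mul_of_nonneg_right hBB hEm.le) hwd.le
    _ ≤ B' * (C₁ * q ^ (1 - c₁) * EE μ s d) * wd μ s d := by
        refine mul_le_mul_of_nonneg_right (mul_le_mul_of_nonneg_left h4 (by linarith)) hwd.le
    _ = (B' * (C₁ * q ^ (1 - c₁))) * (EE μ s d * wd μ s d) := by ring
    _ ≤ q * (EE μ s d * wd μ s d) := mul_le_mul_of_nonneg_right h7 (by positivity)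
    _ = EE μ s d * wd μ s m := by rw [← h8]; ring

end Pool.Agent.W_7d29a1_HL
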