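import Pool.Agent.W_7d29a1_HL.Defs
import Pool.Agent.W_7d29a1_HS.Lucky
import Pool.Agent.W_7d29a1_HS.ExitS
import Pool.Agent.W_7d29a1_t2.AntiSteep
import Pool.Agent.W_7d29a1_g.CrossMean

/-!
MP_7d29a1_pr, TRACK H, part 4: a lucky strip of FIXED width `R₁ wd n` of the slope `sl μ s`, for every number `K` of
units of luck (free end point, no place luck). (Model: `W_7d29a1_SL.Strip`.) (helper7)
-/

set_option autoImplicit false

namespace Pool.Agent.W_7d29a1_HL

open MeasureTheory ProbabilityTheory Filter Topology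
open Pool.Agent.W_7d29a1_F Pool.Agent.W_7d29a1_h4g Pool.Agent.W_7d29a1_H Pool.Agent.W_7d29a1_HS
open Pool.Agent.W_7d29a1_g (HasPath)

variable {μ : Measure ℝ} {s c C : ℝ} {n₀ : ℕ}

theorem poly_cf (r : ℝ) (a : Pt) (n : ℕ) : Poly (sites a n) fun η => cf μ s r η a n := by
  unfold cf
  exact Poly.sum _ fun y _ => poly_WR _ a n y

theorem cf_le_V (r : ℝ) (η : Env) (a : Pt) (n : ℕ) : cf μ s r η a n ≤ Real.exp (V μ s η a n) := by
  rw [exp_V]
  unfold cf
  exact Finset.sum_le_sum fun y _ => WR_le_W _ _ _ _ _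

theorem cf_sh (r : ℝ) (η : Env) (a : Pt) (n : ℕ) : cf μ s r (sh a η) 0 n = cf μ s r η a n := by
  unfold cf
  refine Finset.sum_congr rfl fun y _ => ?_
  have h1 := WR_sh (μ := μ) (s := s) (St μ s r a) η 0 a n y
  rw [zero_add] at h1
  rw [← h1]
  congr 1
  ext p
  show |((p.2 - 0 : ℤ) : ℝ) - sl μ s * ((p.1 - 0 : ℤ) : ℝ)| ≤ r ↔
    |((p.2 + a.2 - a.2 : ℤ) : ℝ) - sl μ s * ((p.1 + a.1 - a.1 : ℤ) : ℝ)| ≤ r
  simp

variable [IsProbabilityMeasure μ]

/-- The straight path of the slope `sl μ s` stays in the strip. -/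
theorem hasPath_St (h : In μ s c C n₀) {r : ℝ} (hr : 1 ≤ r) (a : Pt) (n : ℕ) : HasPath (St μ s r a) a n (md μ s n) := by
  have h0 := h.sl_pos
  have h1 := h.sl_lt
  refine ⟨fun k => md μ s k, md_zero, rfl, fun k _ => ?_, fun k _ _ => ?_⟩
  · have e1 := md_le (μ := μ) (s := s) (k + 1)
    have e2 := lt_md (μ := μ) (s := s) k
    have e3 := lt_md (μ := μ) (s := s) (k + 1)
    have e4 := md_le (μ := μ) (s := s) k
    push_cast at e1 e3
    have e5 : (md μ s (k + 1) : ℝ) < ((md μ s k + 2 : ℤ) : ℝ) := by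
      push_cast
      linarith
    have e6 : (md μ s k : ℝ) < ((md μ s (k + 1) + 1 : ℤ) : ℝ) := by
      push_cast
      linarith
    have e5' : md μ s (k + 1) < md μ s k + 2 := by exact_mod_cast e5
    have e6' : md μ s k < md μ s (k + 1) + 1 := by exact_mod_cast e6
    show md μ s (k + 1) = md μ s k ∨ md μ s (k + 1) = md μ s k + 1
    omega
  · show |(((a.2 + md μ s k - a.2 : ℤ)) : ℝ) - sl μ s * ((a.1 + (k : ℤ) - a.1 : ℤ) : ℝ)| ≤ r
    have e1 := md_le (μ := μ) (s := s) k
    have e2 := lt_md (μ := μ) (s := s) k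
    push_cast
    rw [abs_le]
    constructor <;> linarith

theorem cf_pos (h : In μ s c C n₀) {r : ℝ} (hr : 1 ≤ r) (η : Env) (a : Pt) (n : ℕ) : 0 < cf μ s r η a n := by
  unfold cf
  have h1 : 0 < WR μ s (St μ s r a) η a n (md μ s n) := (hasPath_St h hr a n).wr_pos η
  refine lt_of_lt_of_le h1 (Finset.single_le_sum (f := fun y : ℤ => WR μ s (St μ s r a) η a n y)
    (fun y _ => WR_nonneg _ _ _ _ _) (Finset.mem_Icc.2 ⟨h.md_nonneg n, h.md_le_nat n⟩))


private lemma st_neg (hEM : Pool.Agent.W_7d29a1_h47.EM μ) (n : ℕ) {u : ℝ} (hu : 0 < u) :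
    (law μ).real {η | V μ s η 0 n ≤ -(u * EE μ s n)} ≤ 1 / u := by
  have hE := EE_pos (μ := μ) (s := s) n
  have hI : Integrable (fun η => max (-V μ s η 0 n) 0) (law μ) :=
    ((Sub_V (μ := μ) (s := s) 0 n).neg.max (Sub.const 0)).integrable hEM
  have h1 := mul_meas_ge_le_integral_of_nonneg (μ := law μ) (f := fun η => max (-V μ s η 0 n) 0)
    (ae_of_all _ fun η => le_max_right _ _) hI (u * EE μ s n)
  have h2 : (law μ).real {η | V μ s η 0 n ≤ -(u * EE μ s n)} ≤
      (law μ).real {η | u * EE μ s n ≤ max (-V μ s η 0 n) 0} := by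
    refine measureReal_mono (fun η hη => ?_) (measure_ne_top _ _)
    rw [Set.mem_ofPred_eq] at hη ⊢
    exact le_max_of_le_left (by linarith)
  have h3 := mean_neg_V (μ := μ) (s := s) hEM (le_refl n)
  have h4 : u * EE μ s n * (law μ).real {η | u * EE μ s n ≤ max (-V μ s η 0 n) 0} ≤ EE μ s n := by
    refine le_trans ?_ h3
    simpa [Measure.real] using h1
  rw [le_div_iff₀ hu]
  have h5 : u * (law μ).real {η | u * EE μ s n ≤ max (-V μ s η 0 n) 0} ≤ 1 := by
    by_contra hc
    rw [not_le] at hc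
    have := mul_lt_mul_of_pos_right hc hE
    linarith
  have h6 := mul_le_mul_of_nonneg_left h2 hu.le
  linarith

private lemma st_pos (hEM : Pool.Agent.W_7d29a1_h47.EM μ) (n : ℕ) {u : ℝ} (hu : 0 < u) :
    (law μ).real {η | u * EE μ s n ≤ V μ s η 0 n} ≤ 1 / u := by
  have hE := EE_pos (μ := μ) (s := s) n
  have hV : Integrable (fun η => V μ s η 0 n) (law μ) := (Sub_V (μ := μ) (s := s) 0 n).integrable hEM
  have hI : Integrable (fun η => max (-V μ s η 0 n) 0) (law μ) :=
    ((Sub_V (μ := μ) (s := s) 0 n).neg.max (Sub.const 0)).integrable hEM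
  have hJ : Integrable (fun η => max (V μ s η 0 n) 0) (law μ) :=
    ((Sub_V (μ := μ) (s := s) 0 n).max (Sub.const 0)).integrable hEM
  have h1 := mul_meas_ge_le_integral_of_nonneg (μ := law μ) (f := fun η => max (V μ s η 0 n) 0)
    (ae_of_all _ fun η => le_max_right _ _) hJ (u * EE μ s n)
  have h2 : (law μ).real {η | u * EE μ s n ≤ V μ s η 0 n} ≤
      (law μ).real {η | u * EE μ s n ≤ max (V μ s η 0 n) 0} := by
    refine measureReal_mono (fun η hη => ?_) (measure_ne_top _ _)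
    rw [Set.mem_ofPred_eq] at hη ⊢
    exact le_max_of_le_left hη
  have h3 := mean_neg_V (μ := μ) (s := s) hEM (le_refl n)
  have h3' := integral_V_nonpos (μ := μ) hEM s n
  have h3'' : ∫ η, max (V μ s η 0 n) 0 ∂(law μ) ≤ EE μ s n := by
    have h7 : ∀ η, max (V μ s η 0 n) 0 = V μ s η 0 n + max (-V μ s η 0 n) 0 := by
      intro η
      rcases le_total 0 (V μ s η 0 n) with h0 | h0
      · rw [max_eq_left h0, max_eq_right (by linarith)]
        ring
      · rw [max_eq_right h0, max_eq_left (by linarith)]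
        ring
    have h8 : ∫ η, max (V μ s η 0 n) 0 ∂(law μ) = ∫ η, V μ s η 0 n ∂(law μ) + ∫ η, max (-V μ s η 0 n) 0 ∂(law μ) := by
      rw [← integral_add hV hI]
      exact integral_congr_ae (ae_of_all _ h7)
    linarith
  have h4 : u * EE μ s n * (law μ).real {η | u * EE μ s n ≤ max (V μ s η 0 n) 0} ≤ EE μ s n := by
    refine le_trans ?_ h3''
    simpa [Measure.real] using h1
  rw [le_div_iff₀ hu]
  have h5 : u * (law μ).real {η | u * EE μ s n ≤ max (V μ s η 0 n) 0} ≤ 1 := by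
    by_contra hc
    rw [not_le] at hc
    have := mul_lt_mul_of_pos_right hc hE
    linarith
  have h6 := mul_le_mul_of_nonneg_left h2 hu.le
  linarith

/-- Step 2 at the origin. -/
theorem strip0 (h : In μ s c C n₀) : ∃ R₁ : ℝ, 1 ≤ R₁ ∧ ∀ K : ℝ, ∃ p : ℝ, 0 < p ∧ ∃ n₁ : ℕ, ∀ n : ℕ, n₁ ≤ n →
    p ≤ (law μ).real {η | K * EE μ s n ≤ Real.log (cf μ s (R₁ * wd μ s n) η 0 n)} := by
  have hc0 := h.c0
  have hC1 := h.C1
  have hC0 : 0 < C := lt_of_lt_of_le one_pos hC1
  -- the first level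
  obtain ⟨p₁, hp₁, n2, hl⟩ := lucky h 4
  obtain ⟨R0, hR01, hRu, n3, hn3, hex⟩ := exit_main h
  -- the width
  have ht1 : Tendsto (fun R : ℝ => 4 * (C * Real.exp (-(c * R / (16 * C)))) + 1 / (c * R / 16)) atTop (𝓝 0) := by
    have e1 : Tendsto (fun R : ℝ => c * R / (16 * C)) atTop atTop := by
      have : (fun R : ℝ => c * R / (16 * C)) = fun R => (c / (16 * C)) * R := by
        funext R
        ring
      rw [this]
      exact tendsto_id.const_mul_atTop (by positivity)
    have e2 : Tendsto (fun R : ℝ => c * R / 16) atTop atTop := by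
      have : (fun R : ℝ => c * R / 16) = fun R => (c / 16) * R := by
        funext R
        ring
      rw [this]
      exact tendsto_id.const_mul_atTop (by positivity)
    have e3 : Tendsto (fun R : ℝ => Real.exp (-(c * R / (16 * C)))) atTop (𝓝 0) :=
      Real.tendsto_exp_neg_atTop_nhds_zero.comp e1
    have e4 : Tendsto (fun R : ℝ => 1 / (c * R / 16)) atTop (𝓝 0) := by
      have := tendsto_inv_atTop_zero.comp e2
      refine this.congr fun R => ?_
      rw [Function.comp_apply, one_div]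
    have e5 := ((e3.const_mul C).const_mul 4).add e4
    simpa using e5
  obtain ⟨R1, hR1⟩ := eventually_atTop.1 (ht1.eventually_lt_const (half_pos hp₁))
  obtain ⟨R, hR⟩ : ∃ R : ℝ, R = max R0 R1 := ⟨_, rfl⟩
  have hRR0 : R0 ≤ R := hR ▸ le_max_left _ _
  have hRR1 : R1 ≤ R := hR ▸ le_max_right _ _
  have hR1' : 1 ≤ R := hR01.trans hRR0
  have hcR : 1 ≤ c * R / 16 := hRu R hRR0
  refine ⟨R, hR1', fun K => ?_⟩
  obtain ⟨p, hp, C₁, has⟩ := Pool.Agent.W_7d29a1_t2.antisteep (μ := μ) h.em h.nd (K := max K 1) (c1 := 1 / 2)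
    (c2 := p₁ / 2) (le_max_right _ _) (by norm_num) (by positivity)
  obtain ⟨n4, hn4⟩ := eventually_atTop.1 ((h.tE.eventually_ge_atTop (max C₁ 4)).and
    ((wd_tendsto h).eventually_ge_atTop 1))
  refine ⟨p, hp, max (max n2 n3) n4, fun n hn => ?_⟩
  have hn2 : n2 ≤ n := (le_max_left _ _).trans ((le_max_left _ _).trans hn)
  have hn3' : n3 ≤ n := (le_max_right _ _).trans ((le_max_left _ _).trans hn)
  obtain ⟨hE4, hw1⟩ := hn4 n ((le_max_right _ _).trans hn)
  have hEC : C₁ ≤ EE μ s n := (le_max_left _ _).trans hE4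
  have hE44 : 4 ≤ EE μ s n := (le_max_right _ _).trans hE4
  have hE : 0 < EE μ s n := by linarith
  have hr : 1 ≤ R * wd μ s n := by nlinarith
  have h1 := hex n hn3' R hRR0
  have h2 := st_neg (μ := μ) (s := s) h.em n (u := c * R / 16) (by linarith)
  have h3 := hR1 R hRR1
  have h4 := hl n hn2
  -- the exit event
  obtain ⟨X, hX⟩ : ∃ X : Set Env, X = {η | Real.exp (-(c / 64 * R * EE μ s n)) * Real.exp (V μ s η 0 n) ≤
        Real.exp (V μ s η 0 n) - cf μ s (R * wd μ s n) η 0 n} := ⟨_, rfl⟩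
  rw [← hX] at h1
  have hXp : (law μ).real X ≤ p₁ / 2 := by linarith
  have h5 : p₁ / 2 ≤ (law μ).real {η | 3 * EE μ s n ≤ Real.log (cf μ s (R * wd μ s n) η 0 n)} := by
    have h6 : {η | 4 * EE μ s n ≤ V μ s η 0 n} ⊆ X ∪ {η | 3 * EE μ s n ≤ Real.log (cf μ s (R * wd μ s n) η 0 n)} := by
      intro η hη
      by_cases hx : η ∈ X
      · exact Or.inl hx
      · right
        rw [hX, Set.mem_ofPred_eq, not_le] at hx
        rw [Set.mem_ofPred_eq] at hη ⊢
        have e1 : Real.exp (-(c / 64 * R * EE μ s n)) ≤ Real.exp (-1) := by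
          refine Real.exp_le_exp.2 ?_
          have : 1 ≤ c / 64 * R * EE μ s n := by
            have e2 : c / 64 * R = c * R / 16 / 4 := by ring
            rw [e2]
            nlinarith
          linarith
        have e2 := Real.exp_pos (V μ s η 0 n)
        have e3 : Real.exp (-(c / 64 * R * EE μ s n)) * Real.exp (V μ s η 0 n) ≤
            Real.exp (-1) * Real.exp (V μ s η 0 n) := mul_le_mul_of_nonneg_right e1 e2.le
        have e4 : Real.exp (-1) ≤ 1 - Real.exp (-1) := by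
          have := Real.exp_neg_one_lt_d9
          linarith
        have e5 : Real.exp (V μ s η 0 n - 1) ≤ cf μ s (R * wd μ s n) η 0 n := by
          have e6 : Real.exp (V μ s η 0 n - 1) = Real.exp (-1) * Real.exp (V μ s η 0 n) := by
            rw [← Real.exp_add]
            congr 1
            ring
          rw [e6]
          have e7 := mul_le_mul_of_nonneg_right e4 e2.le
          linarith
        have e6 := (Real.le_log_iff_exp_le (cf_pos h hr η 0 n)).2 e5
        linarith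
    have h7 := measureReal_mono h6 (measure_ne_top (law μ) _)
    have h8 := measureReal_union_le (μ := law μ) X {η | 3 * EE μ s n ≤ Real.log (cf μ s (R * wd μ s n) η 0 n)}
    linarith
  have h6 : 1 / 2 ≤ (law μ).real {η | Real.log (cf μ s (R * wd μ s n) η 0 n) ≤ 2 * EE μ s n} := by
    have h7 := st_pos (μ := μ) (s := s) h.em n (u := 2) (by norm_num)
    have h8 : (Set.univ : Set Env) ⊆ {η | 2 * EE μ s n ≤ V μ s η 0 n} ∪
        {η | Real.log (cf μ s (R * wd μ s n) η 0 n) ≤ 2 * EE μ s n} := by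
      intro η _
      rcases le_total (2 * EE μ s n) (V μ s η 0 n) with h0 | h0
      · exact Or.inl h0
      · right
        rw [Set.mem_ofPred_eq]
        refine le_trans ?_ h0
        rw [Real.log_le_iff_le_exp (cf_pos h hr η 0 n)]
        exact cf_le_V _ _ _ _
    have h9 := measureReal_mono h8 (measure_ne_top (law μ) _)
    have h10 := measureReal_union_le (μ := law μ) {η | 2 * EE μ s n ≤ V μ s η 0 n}
      {η | Real.log (cf μ s (R * wd μ s n) η 0 n) ≤ 2 * EE μ s n}
    rw [probReal_univ] at h9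
    linarith
  have h7 := has (sites 0 n) (fun η => cf μ s (R * wd μ s n) η 0 n) (2 * EE μ s n) (3 * EE μ s n) (poly_cf _ _ _)
    (fun η => cf_pos h hr η 0 n) (by linarith) h6 h5
  refine h7.trans (measureReal_mono (fun η hη => ?_) (measure_ne_top _ _))
  rw [Set.mem_ofPred_eq] at hη ⊢
  refine le_trans ?_ hη
  have e1 : K * EE μ s n ≤ max K 1 * EE μ s n := mul_le_mul_of_nonneg_right (le_max_left _ _) hE.le
  nlinarith

/-- (SL), Step 2: a lucky strip of fixed width, any site. -/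
theorem strip (h : In μ s c C n₀) : ∃ R₁ : ℝ, 1 ≤ R₁ ∧ ∀ K : ℝ, ∃ p : ℝ, 0 < p ∧ ∃ n₁ : ℕ, ∀ n : ℕ, n₁ ≤ n → ∀ a : Pt,
    p ≤ (law μ).real {η | K * EE μ s n ≤ Real.log (cf μ s (R₁ * wd μ s n) η a n)} := by
  obtain ⟨R₁, hR₁, hK⟩ := strip0 h
  refine ⟨R₁, hR₁, fun K => ?_⟩
  obtain ⟨p, hp, n₁, hn⟩ := hK K
  refine ⟨p, hp, n₁, fun n hn' a => ?_⟩
  have h1 := hn n hn'
  have hm : MeasurableSet {η : Env | K * EE μ s n ≤ Real.log (cf μ s (R₁ * wd μ s n) η 0 n)} :=
    measurableSet_le measurable_const (poly_cf (μ := μ) _ 0 n).measurable.log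
  rw [← real_sh (μ := μ) a hm] at h1
  refine h1.trans (le_of_eq ?_)
  congr 1
  ext η
  simp only [Set.mem_ofPred_eq, cf_sh]

end Pool.Agent.W_7d29a1_HL
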