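import Pool.Agent.W_7d29a1_HL.Defs
import Pool.Agent.W_7d29a1_NP.RecN

/-!
MP_7d29a1_pr, TRACK H, part 4: power growth of the unit and of the width at the tilt `s`. (Model: `W_7d29a1_SL.Cor`.) (helper14)
-/

set_option autoImplicit false

namespace Pool.Agent.W_7d29a1_HL

open MeasureTheory ProbabilityTheory Filter Topology
open Pool.Agent.W_7d29a1_F Pool.Agent.W_7d29a1_h4g Pool.Agent.W_7d29a1_H Pool.Agent.W_7d29a1_HS

variable {μ : Measure ℝ} [IsProbabilityMeasure μ] {s c C : ℝ} {n₀ : ℕ}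

/-- The unit grows at least like a power. -/
theorem EE_pow (h : In μ s c C n₀) : ∃ (a : ℝ) (n₁ : ℕ), 0 < a ∧ a ≤ 1 ∧ 1 ≤ n₁ ∧ ∀ m n : ℕ, n₁ ≤ m → m ≤ n →
    ((n : ℝ) / m) ^ a * EE μ s m ≤ 2 * EE μ s n := by
  obtain ⟨J, n₁, hJ⟩ := scale_a h 2
  obtain ⟨b, hb⟩ : ∃ b : ℕ, b = 2 ^ (J + 1) := ⟨_, rfl⟩
  have hb1 : 1 < b := by
    rw [hb]
    exact Nat.one_lt_two_pow (by omega)
  have hbJ : 2 ^ J ≤ b := by
    rw [hb]
    exact Nat.pow_le_pow_right (by norm_num) (by omega)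
  refine ⟨1 / ((J : ℝ) + 1), max n₁ 1, by positivity, ?_, le_max_right _ _, fun m n hm hmn => ?_⟩
  · rw [div_le_one (by positivity)]
    have : (0 : ℝ) ≤ J := Nat.cast_nonneg J
    linarith
  have hm1 : 1 ≤ m := (le_max_right _ _).trans hm
  have hmn1 : n₁ ≤ m := (le_max_left _ _).trans hm
  have hm0 : (0 : ℝ) < m := by exact_mod_cast hm1
  have key : ∀ k n : ℕ, b ^ k * m ≤ n → (2 : ℝ) ^ k * EE μ s m ≤ EE μ s n := by
    intro k
    induction k with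
    | zero =>
      intro n hn
      rw [pow_zero, one_mul] at hn
      rw [pow_zero, one_mul]
      exact EE_mono hn
    | succ k ih =>
      intro n hn
      have h1 := ih (b ^ k * m) le_rfl
      have h2 : 2 ^ J * (b ^ k * m) ≤ n := by
        calc 2 ^ J * (b ^ k * m) ≤ b * (b ^ k * m) := Nat.mul_le_mul_right _ hbJ
          _ = b ^ (k + 1) * m := by ring
          _ ≤ n := hn
      have h3 : n₁ ≤ n := by
        have : b ^ (k + 1) * m ≥ 1 * m := Nat.mul_le_mul_right _ (Nat.one_le_pow _ _ (by omega))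
        omega
      have h4 := hJ (b ^ k * m) n h3 h2
      rw [pow_succ]
      linarith
  obtain ⟨k, hk⟩ : ∃ k : ℕ, k = Nat.log b (n / m) := ⟨_, rfl⟩
  have hnm : n / m ≠ 0 := by
    have := Nat.div_pos hmn (by omega)
    omega
  have h1 : b ^ k ≤ n / m := by rw [hk]; exact Nat.pow_log_le_self b hnm
  have h2 : n / m < b ^ (k + 1) := by rw [hk]; exact Nat.lt_pow_succ_log_self hb1 _
  have h3 : b ^ k * m ≤ n := by
    calc b ^ k * m ≤ n / m * m := Nat.mul_le_mul_right _ h1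
      _ ≤ n := Nat.div_mul_le_self n m
  have h4 : n < b ^ (k + 1) * m := (Nat.div_lt_iff_lt_mul (by omega)).1 h2
  have h5 := key k n h3
  have h6 : (n : ℝ) / m ≤ (2 : ℝ) ^ (((J : ℝ) + 1) * ((k : ℝ) + 1)) := by
    rw [div_le_iff₀ hm0]
    have e1 : (2 : ℝ) ^ (((J : ℝ) + 1) * ((k : ℝ) + 1)) = ((b ^ (k + 1) : ℕ) : ℝ) := by
      rw [hb]
      push_cast
      rw [← pow_mul, ← Real.rpow_natCast]
      push_cast
      rfl
    rw [e1]
    exact_mod_cast h4.le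
  have h7 : ((n : ℝ) / m) ^ (1 / ((J : ℝ) + 1)) ≤ (2 : ℝ) ^ (k + 1) := by
    have h8 := Real.rpow_le_rpow (by positivity) h6 (show (0 : ℝ) ≤ 1 / ((J : ℝ) + 1) by positivity)
    rw [← Real.rpow_mul (by norm_num)] at h8
    have e2 : ((J : ℝ) + 1) * ((k : ℝ) + 1) * (1 / ((J : ℝ) + 1)) = ((k + 1 : ℕ) : ℝ) := by
      have : (J : ℝ) + 1 ≠ 0 := by positivity
      push_cast
      field_simp
    rw [e2, Real.rpow_natCast] at h8
    exact h8
  have h9 := mul_le_mul_of_nonneg_right h7 (EE_pos (μ := μ) (s := s) m).le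
  rw [pow_succ] at h9
  linarith

/-- The cone closes like a power: `vA n (n / m) ^ g ≤ B vA m`. -/
theorem vA_pow (h : In μ s c C n₀) : ∃ (g B : ℝ) (n₁ : ℕ), 0 < g ∧ g ≤ 1 / 3 ∧ 1 ≤ B ∧ 1 ≤ n₁ ∧ ∀ m n : ℕ, n₁ ≤ m → m ≤ n →
    vA 1 μ s n * ((n : ℝ) / m) ^ g ≤ B * vA 1 μ s m := by
  obtain ⟨L, x₁, δ, hδ, hL, hc⟩ := h.cone
  obtain ⟨k, hk⟩ := exists_nat_ge (1 / δ)
  have hkδ : 1 ≤ k * δ := by
    rw [div_le_iff₀ hδ] at hk
    exact hk
  have hk0 : 1 ≤ k := by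
    by_contra hcon
    have : k = 0 := by omega
    rw [this] at hkδ
    norm_num at hkδ
  have hit : ∀ j x : ℕ, x₁ ≤ x → ff 1 μ s x + j * δ ≤ ff 1 μ s (x + j * L) := by
    intro j
    induction j with
    | zero => intro x _; simp
    | succ j ih =>
      intro x hx
      have h1 := ih x hx
      have h2 := hc (x + j * L) (by omega)
      have e : x + j * L + L = x + (j + 1) * L := by ring
      rw [e] at h2
      push_cast
      linarith
  obtain ⟨b, hb⟩ : ∃ b : ℕ → ℝ, b = fun n => 1 / vA 1 μ s n := ⟨_, rfl⟩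
  have hbp : ∀ n, 1 ≤ n → 0 < b n := fun n hn => by
    rw [hb]
    exact one_div_pos.2 (h.vA_pos hn)
  have hcomp : ∀ m n : ℕ, 1 ≤ m → m ≤ n → (m : ℝ) * b m ≤ 2 * (n * b n) := fun m n hm hmn => by
    have v1 := h.vA_pos hm
    have v2 := h.vA_pos (hm.trans hmn)
    have hm0 : (0 : ℝ) < m := by exact_mod_cast hm
    have hmn0 : (m : ℝ) ≤ n := by exact_mod_cast hmn
    have h3 := vA_le_two h hm hmn
    rw [hb]
    show (m : ℝ) * (1 / vA 1 μ s m) ≤ 2 * (n * (1 / vA 1 μ s n))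
    rw [mul_one_div, mul_one_div, mul_div_assoc', div_le_div_iff₀ v1 v2]
    calc (m : ℝ) * vA 1 μ s n ≤ m * (2 * vA 1 μ s m) := mul_le_mul_of_nonneg_left h3 hm0.le
      _ ≤ n * (2 * vA 1 μ s m) := mul_le_mul_of_nonneg_right hmn0 (by positivity)
      _ = 2 * n * vA 1 μ s m := by ring
  have hT : ∀ i, x₁ ≤ i → 2 * b (2 ^ i) ≤ b (2 ^ (i + k * L)) := fun i hi => by
    have h1 := hit k i hi
    have h2 : ff 1 μ s i + 1 ≤ ff 1 μ s (i + k * L) := by linarith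
    have v1 := h.vA_pos (n := 2 ^ i) Nat.one_le_two_pow
    have v2 := h.vA_pos (n := 2 ^ (i + k * L)) Nat.one_le_two_pow
    have h3 : Real.logb 2 (2 * vA 1 μ s (2 ^ (i + k * L))) ≤ Real.logb 2 (vA 1 μ s (2 ^ i)) := by
      rw [Real.logb_mul two_ne_zero v2.ne', Real.logb_self_eq_one one_lt_two]
      unfold ff at h2
      linarith
    have h4 := (Real.logb_le_logb one_lt_two (by positivity) v1).1 h3
    rw [hb]
    show 2 * (1 / vA 1 μ s (2 ^ i)) ≤ 1 / vA 1 μ s (2 ^ (i + k * L))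
    rw [mul_one_div, div_le_div_iff₀ v1 v2, one_mul]
    exact h4
  have hkL : 1 ≤ k * L := Nat.mul_pos hk0 hL
  obtain ⟨c', hc', n₁, hn₁, hfin⟩ := Pool.Agent.W_7d29a1_NP.rec_final hbp hcomp hkL hT
  refine ⟨min c' (1 / 3), max (1 / c') 1, n₁, lt_min hc' (by norm_num), min_le_right _ _, le_max_right _ _, hn₁,
    fun m n hm hmn => ?_⟩
  have hm1 : 1 ≤ m := hn₁.trans hm
  have v1 := h.vA_pos hm1
  have v2 := h.vA_pos (hm1.trans hmn)
  have hm0 : (0 : ℝ) < m := by exact_mod_cast hm1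
  have hmn0 : (m : ℝ) ≤ n := by exact_mod_cast hmn
  have hr1 : 1 ≤ (n : ℝ) / m := (one_le_div hm0).2 hmn0
  have h1 := hfin m n hm hmn
  rw [hb] at h1
  have h2 : c' * ((n : ℝ) / m) ^ c' * (1 / vA 1 μ s m) ≤ 1 / vA 1 μ s n := h1
  rw [mul_one_div, div_le_div_iff₀ v1 v2, one_mul] at h2
  have h3 : ((n : ℝ) / m) ^ (min c' (1 / 3)) ≤ ((n : ℝ) / m) ^ c' :=
    Real.rpow_le_rpow_of_exponent_le hr1 (min_le_left _ _)
  calc vA 1 μ s n * ((n : ℝ) / m) ^ (min c' (1 / 3)) ≤ vA 1 μ s n * ((n : ℝ) / m) ^ c' :=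
        mul_le_mul_of_nonneg_left h3 v2.le
    _ = 1 / c' * (c' * ((n : ℝ) / m) ^ c' * vA 1 μ s n) := by field_simp
    _ ≤ 1 / c' * vA 1 μ s m := mul_le_mul_of_nonneg_left h2 (by positivity)
    _ ≤ max (1 / c') 1 * vA 1 μ s m := mul_le_mul_of_nonneg_right (le_max_left _ _) v1.le

/-- The width grows at most like a power `< 1`. -/
theorem wd_pow_le (h : In μ s c C n₀) : ∃ (g B : ℝ) (n₁ : ℕ), 0 < g ∧ g ≤ 1 / 3 ∧ 1 ≤ B ∧ 1 ≤ n₁ ∧ ∀ m n : ℕ, n₁ ≤ m → m ≤ n →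
    wd μ s n ≤ B * ((n : ℝ) / m) ^ (1 - g) * wd μ s m := by
  obtain ⟨g, B, n₁, hg, hg3, hB, hn₁, hv⟩ := vA_pow h
  refine ⟨g, B, n₁, hg, hg3, hB, hn₁, fun m n hm hmn => ?_⟩
  have hm1 : 1 ≤ m := hn₁.trans hm
  have hm0 : (0 : ℝ) < m := by exact_mod_cast hm1
  have hn0 : (0 : ℝ) < n := by exact_mod_cast (hm1.trans hmn)
  have hr : 0 < (n : ℝ) / m := by positivity
  have h1 := hv m n hm hmn
  have h2 : ((n : ℝ) / m) ^ (1 - g) = ((n : ℝ) / m) / ((n : ℝ) / m) ^ g := by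
    rw [Real.rpow_sub hr, Real.rpow_one]
  have hp : 0 < ((n : ℝ) / m) ^ g := Real.rpow_pos_of_pos hr _
  unfold wd
  rw [h2]
  have h3 : vA 1 μ s n ≤ B * vA 1 μ s m / ((n : ℝ) / m) ^ g := by
    rw [le_div_iff₀ hp]
    exact h1
  calc (n : ℝ) * vA 1 μ s n ≤ n * (B * vA 1 μ s m / ((n : ℝ) / m) ^ g) := mul_le_mul_of_nonneg_left h3 hn0.le
    _ = B * (((n : ℝ) / m) / ((n : ℝ) / m) ^ g) * (m * vA 1 μ s m) := by field_simp

end Pool.Agent.W_7d29a1_HL
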