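import Pool.Agent.W_7d29a1_HL.N2
import Pool.Agent.W_7d29a1_HL.Cor

/-!
MP_7d29a1_pr, TRACK H, part 4: THEOREM (SL) at the tilt `s`. It is a consequence of the superlinearity of the rate function and of
the closing of the cone. (helper14)
-/

set_option autoImplicit false

namespace Pool.Agent.W_7d29a1_HL

open MeasureTheory ProbabilityTheory Filter Topology
open Pool.Agent.W_7d29a1_F Pool.Agent.W_7d29a1_h4g Pool.Agent.W_7d29a1_H Pool.Agent.W_7d29a1_HS

variable {μ : Measure ℝ} [IsProbabilityMeasure μ] {s c C : ℝ} {n₀ : ℕ}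

/-- **THEOREM (SL).** -/
theorem sl (h : In μ s c C n₀) : ∃ (C₁ c₁ : ℝ) (n₃ : ℕ), 0 < C₁ ∧ 0 < c₁ ∧ c₁ < 1 ∧ SL μ s C₁ c₁ n₃ := by
  obtain ⟨K, a, v₀, hK, ha, ha1, hv₀, -, hJ⟩ := n2 h
  obtain ⟨g, B, n₁, hg, hg3, hB, hn₁, hw⟩ := wd_pow_le h
  obtain ⟨a₀, A₀, n₂, ha₀, hA₀, -, hJw⟩ := J_wd h one_pos
  obtain ⟨n₃, hn₃⟩ := eventually_atTop.1 (h.tv.eventually_lt_const hv₀)
  obtain ⟨e, he⟩ : ∃ e : ℝ, e = a * g / (1 - g) := ⟨_, rfl⟩
  have h1g : 0 < 1 - g := by linarith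
  have he0 : 0 < e := by rw [he]; positivity
  have he1 : e < 1 := by
    rw [he, div_lt_one h1g]
    nlinarith
  have hB0 : 0 < B := by linarith
  -- the constants of the two cases
  obtain ⟨P, hP⟩ : ∃ P : ℝ, P = K * A₀ / a₀ * B ^ (a / (1 - g)) := ⟨_, rfl⟩
  obtain ⟨P', hP'⟩ : ∃ P' : ℝ, P' = 2 * B ^ (1 / g) := ⟨_, rfl⟩
  have hP0 : 0 < P := by rw [hP]; positivity
  have hP'0 : 0 < P' := by rw [hP']; positivity
  refine ⟨max P P', e, max (max n₁ n₂) n₃, lt_max_of_lt_left hP0, he0, he1, fun m n hm hmn => ?_⟩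
  have hm1 : n₁ ≤ m := ((le_max_left _ _).trans (le_max_left _ _)).trans hm
  have hm2 : n₂ ≤ m := ((le_max_right _ _).trans (le_max_left _ _)).trans hm
  have hm3 : n₃ ≤ m := (le_max_right _ _).trans hm
  have hmp : 1 ≤ m := hn₁.trans hm1
  have hnp : 1 ≤ n := hmp.trans hmn
  have hm0 : (0 : ℝ) < m := by exact_mod_cast hmp
  have hn0 : (0 : ℝ) < n := by exact_mod_cast hnp
  have hmn0 : (m : ℝ) ≤ n := by exact_mod_cast hmn
  have vm := h.vA_pos hmp
  have vn := h.vA_pos hnp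
  have wm := h.wd_pos hmp
  have wn := h.wd_pos hnp
  have Em := EE_pos (μ := μ) (s := s) m
  have En := EE_pos (μ := μ) (s := s) n
  obtain ⟨T, hT⟩ : ∃ T : ℝ, T = (n : ℝ) / m := ⟨_, rfl⟩
  obtain ⟨q, hq⟩ : ∃ q : ℝ, q = wd μ s n / wd μ s m := ⟨_, rfl⟩
  have hT1 : 1 ≤ T := by rw [hT]; exact (one_le_div hm0).2 hmn0
  have hT0 : 0 < T := by linarith
  have hq0 : 0 < q := by rw [hq]; positivity
  have hqT : q ≤ B * T ^ (1 - g) := by
    rw [hq, div_le_iff₀ wm, hT]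
    exact hw m n hm1 hmn
  rw [← hq]
  have hqp : 0 < q ^ (1 - e) := Real.rpow_pos_of_pos hq0 _
  rcases le_total q T with hcase | hcase
  · -- the main case: `vA n ≤ vA m`
    have hR : vA 1 μ s m / vA 1 μ s n = T / q := by
      rw [hT, hq]
      unfold wd
      field_simp
    obtain ⟨R, hRd⟩ : ∃ R : ℝ, R = T / q := ⟨_, rfl⟩
    have hR1 : 1 ≤ R := by rw [hRd]; exact (one_le_div hq0).2 hcase
    have hR0 : 0 < R := by linarith
    have hRv : R * vA 1 μ s n = vA 1 μ s m := by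
      rw [hRd, ← hR]
      field_simp
    have h1 := hJ (vA 1 μ s n) R hR1 (by rw [hRv, abs_of_pos vm]; exact (hn₃ m hm3).le)
    rw [hRv] at h1
    have h2 := (hJw n (hm2.trans hmn) (vA 1 μ s n) (by rw [one_mul, abs_of_pos vn])).1
    have h3 := (hJw m hm2 (vA 1 μ s m) (by rw [one_mul, abs_of_pos vm])).2
    have hRp : 0 < R ^ (1 + a) := Real.rpow_pos_of_pos hR0 _
    -- `a₀ R^(1+a) EE n ≤ K A₀ T EE m`
    have h4 : R ^ (1 + a) * (a₀ * EE μ s n) ≤ K * (A₀ * EE μ s m) * T := by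
      have h5 : R ^ (1 + a) * (a₀ * EE μ s n) ≤ R ^ (1 + a) * (n * J μ s (vA 1 μ s n)) :=
        mul_le_mul_of_nonneg_left h2 hRp.le
      have h6 : R ^ (1 + a) * (n * J μ s (vA 1 μ s n)) ≤ n * (K * J μ s (vA 1 μ s m)) := by
        calc R ^ (1 + a) * (n * J μ s (vA 1 μ s n)) = n * (R ^ (1 + a) * J μ s (vA 1 μ s n)) := by ring
          _ ≤ n * (K * J μ s (vA 1 μ s m)) := mul_le_mul_of_nonneg_left h1 hn0.le
      have h7 : n * (K * J μ s (vA 1 μ s m)) = K * (m * J μ s (vA 1 μ s m)) * T := by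
        rw [hT]
        field_simp
      have h8 : K * (m * J μ s (vA 1 μ s m)) * T ≤ K * (A₀ * EE μ s m) * T :=
        mul_le_mul_of_nonneg_right (mul_le_mul_of_nonneg_left h3 hK.le) hT0.le
      linarith
    -- `T ^ (-a) ≤ (B / q) ^ (a / (1 - g))`
    have h5 : q ^ (a / (1 - g)) ≤ B ^ (a / (1 - g)) * T ^ a := by
      have h6 := Real.rpow_le_rpow hq0.le hqT (show 0 ≤ a / (1 - g) by positivity)
      rw [Real.mul_rpow hB0.le (Real.rpow_nonneg hT0.le _), ← Real.rpow_mul hT0.le] at h6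
      have h7 : (1 - g) * (a / (1 - g)) = a := by field_simp
      rwa [h7] at h6
    -- everything in powers of `q` and `T`
    have h6 : R ^ (1 + a) = T * T ^ a / (q * q ^ a) := by
      rw [hRd, Real.div_rpow hT0.le hq0.le, Real.rpow_add hT0, Real.rpow_add hq0, Real.rpow_one, Real.rpow_one]
    have hTa : 0 < T ^ a := Real.rpow_pos_of_pos hT0 _
    have hqa : 0 < q ^ a := Real.rpow_pos_of_pos hq0 _
    have hqg : 0 < q ^ (a / (1 - g)) := Real.rpow_pos_of_pos hq0 _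
    have hBg : 0 < B ^ (a / (1 - g)) := Real.rpow_pos_of_pos hB0 _
    have h7 : q ^ (1 - e) * q ^ (a / (1 - g)) = q * q ^ a := by
      rw [← Real.rpow_add hq0, show q * q ^ a = q ^ (1 + a) by rw [Real.rpow_add hq0, Real.rpow_one]]
      congr 1
      rw [he]
      field_simp
      ring
    -- `a₀ EE n T^a ≤ K A₀ q q^a EE m`
    have h8 : T ^ a * (a₀ * EE μ s n) ≤ K * (A₀ * EE μ s m) * (q * q ^ a) := by
      rw [h6, div_mul_eq_mul_div, div_le_iff₀ (by positivity)] at h4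
      have h9 : T * (T ^ a * (a₀ * EE μ s n)) ≤ T * (K * (A₀ * EE μ s m) * (q * q ^ a)) := by linarith
      exact le_of_mul_le_mul_left h9 hT0
    have h9 : q ^ (a / (1 - g)) * (a₀ * EE μ s n) ≤
        q ^ (a / (1 - g)) * (B ^ (a / (1 - g)) * (K * A₀) * q ^ (1 - e) * EE μ s m) := by
      calc q ^ (a / (1 - g)) * (a₀ * EE μ s n) ≤ B ^ (a / (1 - g)) * T ^ a * (a₀ * EE μ s n) :=
            mul_le_mul_of_nonneg_right h5 (by positivity)
        _ = B ^ (a / (1 - g)) * (T ^ a * (a₀ * EE μ s n)) := by ring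
        _ ≤ B ^ (a / (1 - g)) * (K * (A₀ * EE μ s m) * (q * q ^ a)) := mul_le_mul_of_nonneg_left h8 hBg.le
        _ = q ^ (a / (1 - g)) * (B ^ (a / (1 - g)) * (K * A₀) * q ^ (1 - e) * EE μ s m) := by rw [← h7]; ring
    have h10 := le_of_mul_le_mul_left h9 hqg
    have h11 : EE μ s n ≤ P * q ^ (1 - e) * EE μ s m := by
      rw [hP]
      have h12 : a₀ * EE μ s n ≤ a₀ * (K * A₀ / a₀ * B ^ (a / (1 - g)) * q ^ (1 - e) * EE μ s m) := by
        refine h10.trans (le_of_eq ?_)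
        field_simp
      exact le_of_mul_le_mul_left h12 ha₀
    exact h11.trans (mul_le_mul_of_nonneg_right (mul_le_mul_of_nonneg_right (le_max_left _ _) hqp.le) Em.le)
  · -- the other case: the times are comparable
    have h1 : T ^ g ≤ B := by
      have h2 : T ≤ B * T ^ (1 - g) := hcase.trans hqT
      have h3 : T = T ^ g * T ^ (1 - g) := by
        rw [← Real.rpow_add hT0]
        ring_nf
        rw [Real.rpow_one]
      have h4 : T ^ g * T ^ (1 - g) ≤ B * T ^ (1 - g) := by rwa [← h3]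
      exact le_of_mul_le_mul_right h4 (Real.rpow_pos_of_pos hT0 _)
    have h2 : T ≤ B ^ (1 / g) := by
      have h3 := Real.rpow_le_rpow (Real.rpow_nonneg hT0.le _) h1 (show 0 ≤ 1 / g by positivity)
      rwa [← Real.rpow_mul hT0.le, mul_one_div_cancel hg.ne', Real.rpow_one] at h3
    have h3 := scale_b h hmp hmn
    have h4 : EE μ s n ≤ 2 * T * EE μ s m := by
      rw [hT]
      have h5 : (m : ℝ) * EE μ s n ≤ m * (2 * (n / m) * EE μ s m) := by
        refine h3.trans (le_of_eq ?_)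
        field_simp
      exact le_of_mul_le_mul_left h5 hm0
    have hq1 : 1 ≤ q := hT1.trans hcase
    have h5 : 1 ≤ q ^ (1 - e) := Real.one_le_rpow hq1 (by linarith)
    have h6 : EE μ s n ≤ P' * EE μ s m := by
      rw [hP']
      exact h4.trans (mul_le_mul_of_nonneg_right (by linarith) Em.le)
    calc EE μ s n ≤ P' * EE μ s m := h6
      _ = P' * 1 * EE μ s m := by ring
      _ ≤ max P P' * q ^ (1 - e) * EE μ s m := by
          refine mul_le_mul_of_nonneg_right ?_ Em.le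
          exact mul_le_mul (le_max_right _ _) h5 zero_le_one (hP'0.le.trans (le_max_right _ _))

/-- The unit is at most a power `< 1` of the width. -/
theorem EE_le_wd' (h : In μ s c C n₀) : ∃ (B c₁ : ℝ) (n₂ : ℕ), 0 < B ∧ 0 < c₁ ∧ c₁ < 1 ∧ ∀ n, n₂ ≤ n →
    EE μ s n ≤ B * wd μ s n ^ (1 - c₁) := by
  obtain ⟨C₁, c₁, n₃, hC₁, h0, h1, hS⟩ := sl h
  obtain ⟨m, hm⟩ : ∃ m : ℕ, m = max n₃ 1 := ⟨_, rfl⟩
  have hm1 : 1 ≤ m := by omega
  have hwm := h.wd_pos hm1
  have hp : 0 < wd μ s m ^ (1 - c₁) := Real.rpow_pos_of_pos hwm _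
  have hE := EE_pos (μ := μ) (s := s) m
  refine ⟨C₁ * EE μ s m / wd μ s m ^ (1 - c₁), c₁, m, by positivity, h0, h1, fun n hn => ?_⟩
  have h2 := hS m n (by omega) hn
  rw [Real.div_rpow (h.wd_nonneg n) hwm.le] at h2
  refine h2.trans (le_of_eq ?_)
  field_simp

end Pool.Agent.W_7d29a1_HL
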