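import Pool.Agent.W_7d29a1_HL.Strip

/-!
MP_7d29a1_pr, TRACK H, part 4: the lucky side at the tilt `s`. The polymer from `o` goes to the start `a` of a
narrow set `S` of sites, stays in `S` for the time `l`, and goes from its (free) end point to a fixed site `b` (Jensen
with the end law of the confined polymer). The mean cost `CQ` of the last way, for this end law, has a conditional mean
at most `B` given the sites before the end of `S`. (Model: `W_7d29a1_SL.LuckSide`.) (helper7)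
-/

set_option autoImplicit false

namespace Pool.Agent.W_7d29a1_HL

open MeasureTheory ProbabilityTheory Filter Topology
open Pool.Agent.W_7d29a1_F Pool.Agent.W_7d29a1_h4g Pool.Agent.W_7d29a1_H Pool.Agent.W_7d29a1_HS
open Pool.Agent.W_7d29a1_h60 Pool.Agent.W_7d29a1_L78

noncomputable section

/-- The total weight of the polymers from `a` of length `l` which stay in `S`. -/
def cS (μ : Measure ℝ) (s : ℝ) (S : Set Pt) (η : Env) (a : Pt) (l : ℕ) : ℝ := ∑ y ∈ Finset.Icc (0 : ℤ) l, WR μ s S η a l y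

/-- The mean cost of the way `(a.1 + l, a.2 + y) → (a.1 + l + t, a.2 + z)`, for the end law (`y`) of the polymer from
`a` confined to `S`. -/
def CQ (μ : Measure ℝ) (s : ℝ) (S : Set Pt) (η : Env) (a : Pt) (l t : ℕ) (z : ℤ) : ℝ :=
  (∑ y ∈ Finset.Icc (0 : ℤ) l, WR μ s S η a l y * max (X μ s η (a.1 + l, a.2 + y) t (z - y)) 0) /
    cS μ s S η a l

variable {μ : Measure ℝ} {s c C : ℝ} {n₀ : ℕ}

/-- The end point of the confined polymer is in the strip. -/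
theorem WR_St_out {S : Set Pt} {r : ℝ} (hr : 0 ≤ r) {a : Pt} (hS : S ⊆ St μ s r a) (η : Env) (l : ℕ) {y : ℤ}
    (hy : ¬ |(y : ℝ) - sl μ s * l| ≤ r) : WR μ s S η a l y = 0 := by
  have h0 : Zr S η a l y = 0 := by
    cases l with
    | zero =>
      show (if y = 0 then (1 : ℝ) else 0) = 0
      rw [if_neg]
      rintro rfl
      apply hy
      simp only [Int.cast_zero, mul_zero, Nat.cast_zero, sub_zero, abs_zero]
      linarith
    | succ l =>
      show S.indicator (fun p => Real.exp (η p)) (a.1 + ((l : ℤ) + 1), a.2 + y) *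
        (Zr S η a l y + Zr S η a l (y - 1)) = 0
      rw [Set.indicator_of_notMem, zero_mul]
      intro hm
      apply hy
      have hm' : |((a.2 + y - a.2 : ℤ) : ℝ) - sl μ s * ((a.1 + ((l : ℤ) + 1) - a.1 : ℤ) : ℝ)| ≤ r := hS hm
      push_cast at hm' ⊢
      have e1 : (a.2 : ℝ) + y - a.2 - sl μ s * ((a.1 : ℝ) + (l + 1) - a.1) = (y : ℝ) - sl μ s * (l + 1) := by ring
      rwa [e1] at hm'
  unfold WR
  rw [h0, mul_zero]

/-- Jensen for a finite sum of weights. -/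
private lemma ls_jensen (I : Finset ℤ) {g x : ℤ → ℝ} (hg : ∀ k ∈ I, 0 ≤ g k) (hS : 0 < ∑ k ∈ I, g k) {B : ℝ}
    (hB : ∑ k ∈ I, g k * Real.exp (x k) ≤ Real.exp B) :
    Real.log (∑ k ∈ I, g k) + (∑ k ∈ I, g k * x k) / (∑ k ∈ I, g k) ≤ B := by
  obtain ⟨S, hSd⟩ : ∃ S : ℝ, S = ∑ k ∈ I, g k := ⟨_, rfl⟩
  obtain ⟨M, hM⟩ : ∃ M : ℝ, M = (∑ k ∈ I, g k * x k) / S := ⟨_, rfl⟩
  rw [← hSd] at hS ⊢
  rw [← hM]
  have hMS : ∑ k ∈ I, g k * x k = M * S := by rw [hM, div_mul_cancel₀ _ hS.ne']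
  have key : Real.exp M * S ≤ Real.exp B := by
    refine le_trans ?_ hB
    have h1 : ∀ k ∈ I, Real.exp M * (g k * (1 + x k - M)) ≤ g k * Real.exp (x k) := by
      intro k hk
      have h2 : 1 + x k - M ≤ Real.exp (x k - M) := by
        linarith [Real.add_one_le_exp (x k - M)]
      have h3 : Real.exp (x k) = Real.exp M * Real.exp (x k - M) := by
        rw [← Real.exp_add]
        congr 1
        ring
      rw [h3]
      have h4 := mul_le_mul_of_nonneg_left (mul_le_mul_of_nonneg_left h2 (hg k hk)) (Real.exp_nonneg M)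
      linarith
    refine le_trans (le_of_eq ?_) (Finset.sum_le_sum h1)
    rw [← Finset.mul_sum]
    have h5 : ∑ k ∈ I, g k * (1 + x k - M) = (1 - M) * ∑ k ∈ I, g k + ∑ k ∈ I, g k * x k := by
      rw [Finset.mul_sum, ← Finset.sum_add_distrib]
      exact Finset.sum_congr rfl fun k _ => by ring
    rw [h5, hMS, ← hSd]
    ring
  have h6 := Real.log_le_log (mul_pos (Real.exp_pos M) hS) key
  rw [Real.log_mul (Real.exp_pos M).ne' hS.ne', Real.log_exp, Real.log_exp] at h6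
  linarith

/-- (3a), THE DETERMINISTIC PART. -/
theorem luck_det {S : Set Pt} {r : ℝ} (hr : 0 ≤ r) (η : Env) (o : Pt) {t₁ : ℕ} {y₁ : ℤ} (h0 : 0 ≤ y₁) (h1 : y₁ ≤ t₁)
    (hS : S ⊆ St μ s r (o.1 + t₁, o.2 + y₁)) (l t n₃ : ℕ) (z : ℤ)
    (hend : ∀ y : ℤ, 0 ≤ y → y ≤ l → |(y : ℝ) - sl μ s * l| ≤ r → 0 ≤ z - y ∧ z - y ≤ t)
    (hcf : 0 < cS μ s S η (o.1 + t₁, o.2 + y₁) l) :
    -X μ s η o t₁ y₁ + (Real.log (cS μ s S η (o.1 + t₁, o.2 + y₁) l) - CQ μ s S η (o.1 + t₁, o.2 + y₁) l t z +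
      V μ s η (o.1 + t₁ + l + t, o.2 + y₁ + z) n₃) ≤ V μ s η o (t₁ + (l + (t + n₃))) := by
  obtain ⟨a, ha⟩ : ∃ a : Pt, a = (o.1 + t₁, o.2 + y₁) := ⟨_, rfl⟩
  have e1 := V_add_ge (μ := μ) (s := s) η o t₁ (l + (t + n₃)) h0 h1
  rw [← ha] at e1 hS hcf ⊢
  have hb : ((o.1 + t₁ + l + t, o.2 + y₁ + z) : Pt) = (a.1 + l + t, a.2 + z) := by rw [ha]
  rw [hb]
  obtain ⟨b, hbd⟩ : ∃ b : ℝ, b = V μ s η (a.1 + l + t, a.2 + z) n₃ := ⟨_, rfl⟩
  rw [← hbd]
  -- the strip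
  have hx : ∀ k ∈ Finset.Icc (0 : ℤ) l, WR μ s S η a l k *
      Real.exp (-max (X μ s η (a.1 + l, a.2 + k) t (z - k)) 0 + b) ≤
      W μ s η a l k * Real.exp (V μ s η (a.1 + l, a.2 + k) (t + n₃)) := by
    intro k hk
    rw [Finset.mem_Icc] at hk
    by_cases hs : |(k : ℝ) - sl μ s * l| ≤ r
    · obtain ⟨h2, h3⟩ := hend k hk.1 hk.2 hs
      have h4 := V_add_ge (μ := μ) (s := s) η (a.1 + l, a.2 + k) t n₃ h2 h3
      have h5 : (((a.1 + l, a.2 + k) : Pt).1 + (t : ℤ), ((a.1 + l, a.2 + k) : Pt).2 + (z - k)) =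
          ((a.1 + l + t, a.2 + z) : Pt) := by
        refine Prod.ext rfl ?_
        show a.2 + k + (z - k) = a.2 + z
        ring
      rw [h5, ← hbd] at h4
      have h6 : -max (X μ s η (a.1 + l, a.2 + k) t (z - k)) 0 + b ≤ V μ s η (a.1 + l, a.2 + k) (t + n₃) := by
        have := le_max_left (X μ s η (a.1 + l, a.2 + k) t (z - k)) 0
        linarith
      exact mul_le_mul (WR_le_W _ _ _ _ _) (Real.exp_le_exp.2 h6) (Real.exp_nonneg _) (W_nonneg _ _ _ _)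
    · rw [WR_St_out hr hS η l hs, zero_mul]
      exact mul_nonneg (W_nonneg _ _ _ _) (Real.exp_nonneg _)
  have h7 : ∑ k ∈ Finset.Icc (0 : ℤ) l, WR μ s S η a l k *
      Real.exp (-max (X μ s η (a.1 + l, a.2 + k) t (z - k)) 0 + b) ≤ Real.exp (V μ s η a (l + (t + n₃))) := by
    rw [exp_V_add]
    exact Finset.sum_le_sum hx
  have h8 := ls_jensen (Finset.Icc (0 : ℤ) l) (g := fun k => WR μ s S η a l k)
    (x := fun k => -max (X μ s η (a.1 + l, a.2 + k) t (z - k)) 0 + b) (fun k _ => WR_nonneg _ _ _ _ _) hcf h7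
  have h9 : (∑ k ∈ Finset.Icc (0 : ℤ) l, WR μ s S η a l k *
      (-max (X μ s η (a.1 + l, a.2 + k) t (z - k)) 0 + b)) / (∑ k ∈ Finset.Icc (0 : ℤ) l, WR μ s S η a l k) =
      -CQ μ s S η a l t z + b := by
    have h10 : ∑ k ∈ Finset.Icc (0 : ℤ) l, WR μ s S η a l k = cS μ s S η a l := rfl
    have h11 : ∑ k ∈ Finset.Icc (0 : ℤ) l, WR μ s S η a l k *
        (-max (X μ s η (a.1 + l, a.2 + k) t (z - k)) 0 + b) =
        -(∑ k ∈ Finset.Icc (0 : ℤ) l, WR μ s S η a l k * max (X μ s η (a.1 + l, a.2 + k) t (z - k)) 0) +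
          b * cS μ s S η a l := by
      rw [← h10, Finset.mul_sum, ← Finset.sum_neg_distrib, ← Finset.sum_add_distrib]
      exact Finset.sum_congr rfl fun k _ => by ring
    rw [h10, h11]
    unfold CQ
    field_simp
  rw [h9] at h8
  have h12 : Real.log (∑ k ∈ Finset.Icc (0 : ℤ) l, WR μ s S η a l k) = Real.log (cS μ s S η a l) := rfl
  linarith

theorem cS_nonneg (S : Set Pt) (η : Env) (a : Pt) (l : ℕ) : 0 ≤ cS μ s S η a l :=
  Finset.sum_nonneg fun _ _ => WR_nonneg _ _ _ _ _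

theorem CQ_nonneg (S : Set Pt) (η : Env) (a : Pt) (l t : ℕ) (z : ℤ) : 0 ≤ CQ μ s S η a l t z :=
  div_nonneg (Finset.sum_nonneg fun _ _ => mul_nonneg (WR_nonneg _ _ _ _ _) (le_max_right _ _)) (cS_nonneg S η a l)

theorem measurable_WR' (R : Set Pt) (a : Pt) (l : ℕ) (y : ℤ) : Measurable fun η : Env => WR μ s R η a l y :=
  (poly_WR R a l y).measurable

theorem measurable_cS (S : Set Pt) (a : Pt) (l : ℕ) : Measurable fun η : Env => cS μ s S η a l :=
  Finset.measurable_sum _ fun y _ => measurable_WR' S a l y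

theorem measurable_CQ (S : Set Pt) (a : Pt) (l t : ℕ) (z : ℤ) : Measurable fun η : Env => CQ μ s S η a l t z := by
  unfold CQ
  refine (Finset.measurable_sum _ fun y _ => ?_).div (measurable_cS S a l)
  exact (measurable_WR' _ a l y).mul ((measurable_X _ t (z - y)).max measurable_const)

/-- The weights of the polymers confined to `S` depend only on the sites of `S` in the rows `(a.1, a.1 + l]`. -/
theorem cS_dep (S : Set Pt) (a : Pt) (l : ℕ) : DependsOn (fun η : Env => cS μ s S η a l) (S ∩ rows a.1 (a.1 + l)) := by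
  intro η η' h
  show cS μ s S η a l = cS μ s S η' a l
  unfold cS
  refine Finset.sum_congr rfl fun y _ => ?_
  refine WR_dep (μ := μ) (s := s) S a l y fun p hp => h p ⟨hp.2, hp.1.1, hp.1.2.1⟩

variable [IsProbabilityMeasure μ]

/-- (3a), THE CONDITIONAL MEAN: `A` is an event of the sites up to the end of the strip. -/
theorem CQ_mean (hEM : Pool.Agent.W_7d29a1_h47.EM μ) {S₁ : Set Pt} {r : ℝ} (hr : 0 ≤ r) {a : Pt} (hS₁ : S₁ ⊆ St μ s r a)
    (l t : ℕ) (z : ℤ) {B : ℝ} (hB : 0 ≤ B)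
    (hend : ∀ y : ℤ, 0 ≤ y → y ≤ l → |(y : ℝ) - sl μ s * l| ≤ r → 0 ≤ z - y ∧ z - y ≤ t ∧ ep μ s t (z - y) ≤ B)
    {S : Set Pt} (hS : ∀ p ∈ S, p.1 ≤ a.1 + l) {A : Set Env} (hA : MeasurableSet A)
    (hAd : ∀ η η' : Env, (∀ p ∈ S, η p = η' p) → (η ∈ A ↔ η' ∈ A)) :
    Integrable (fun η => A.indicator (fun _ => (1 : ℝ)) η * CQ μ s S₁ η a l t z) (law μ) ∧
    ∫ η, A.indicator (fun _ => (1 : ℝ)) η * CQ μ s S₁ η a l t z ∂(law μ) ≤ B * (law μ).real A := by
  classical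
  obtain ⟨K, hK⟩ : ∃ K : Finset ℤ, K = Finset.filter (fun y : ℤ => |(y : ℝ) - sl μ s * l| ≤ r)
    (Finset.Icc (0 : ℤ) l) := ⟨_, rfl⟩
  obtain ⟨ι, hι⟩ : ∃ ι : Env → ℝ, ι = A.indicator fun _ => (1 : ℝ) := ⟨_, rfl⟩
  obtain ⟨S', hS'⟩ : ∃ S' : Set Pt, S' = S ∪ (S₁ ∩ rows a.1 (a.1 + l)) := ⟨_, rfl⟩
  have hι0 : ∀ η, 0 ≤ ι η := fun η => by rw [hι]; exact Set.indicator_nonneg (fun _ _ => zero_le_one) η
  have hι1 : ∀ η, ι η ≤ 1 := fun η => by
    rw [hι]
    by_cases h : η ∈ A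
    · rw [Set.indicator_of_mem h]
    · rw [Set.indicator_of_notMem h]
      exact zero_le_one
  have hιm : Measurable ι := by rw [hι]; exact measurable_const.indicator hA
  have hιd : DependsOn ι S := by
    intro η η' h
    rw [hι]
    by_cases h1 : η ∈ A
    · rw [Set.indicator_of_mem h1, Set.indicator_of_mem ((hAd η η' h).1 h1)]
    · rw [Set.indicator_of_notMem h1, Set.indicator_of_notMem fun h2 => h1 ((hAd η η' h).2 h2)]
  obtain ⟨g, hg⟩ : ∃ g : ℤ → Env → ℝ, g = fun y η => ι η * (WR μ s S₁ η a l y / cS μ s S₁ η a l) := ⟨_, rfl⟩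
  obtain ⟨F, hF⟩ : ∃ F : ℤ → Env → ℝ, F = fun y η => max (X μ s η (a.1 + l, a.2 + y) t (z - y)) 0 := ⟨_, rfl⟩
  have hKI : ∀ y ∈ K, 0 ≤ y ∧ y ≤ (l : ℤ) ∧ |(y : ℝ) - sl μ s * l| ≤ r := fun y hy => by
    rw [hK, Finset.mem_filter, Finset.mem_Icc] at hy
    exact ⟨hy.1.1, hy.1.2, hy.2⟩
  have hcf : ∀ η, 0 ≤ cS μ s S₁ η a l := fun η => cS_nonneg S₁ η a l
  have hsumW : ∀ η, ∑ y ∈ K, WR μ s S₁ η a l y = cS μ s S₁ η a l := by
    intro η
    unfold cS
    rw [hK, Finset.sum_filter]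
    refine Finset.sum_congr rfl fun y _ => ?_
    split_ifs with h
    · rfl
    · exact (WR_St_out hr hS₁ η l h).symm
  have he : ∀ η, ι η * CQ μ s S₁ η a l t z = ∑ y ∈ K, g y η * F y η := by
    intro η
    unfold CQ
    rw [hg, hF]
    have h1 : ∑ y ∈ Finset.Icc (0 : ℤ) l, WR μ s S₁ η a l y * max (X μ s η (a.1 + l, a.2 + y) t (z - y)) 0 =
        ∑ y ∈ K, WR μ s S₁ η a l y * max (X μ s η (a.1 + l, a.2 + y) t (z - y)) 0 := by
      rw [hK, Finset.sum_filter]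
      refine Finset.sum_congr rfl fun y _ => ?_
      split_ifs with h
      · rfl
      · rw [WR_St_out hr hS₁ η l h, zero_mul]
    rw [h1, Finset.sum_div, Finset.mul_sum]
    exact Finset.sum_congr rfl fun y _ => by ring
  have hg01 : ∀ y ∈ K, ∀ η, 0 ≤ g y η ∧ g y η ≤ 1 := by
    intro y hy η
    have h1 : 0 ≤ WR μ s S₁ η a l y / cS μ s S₁ η a l := div_nonneg (WR_nonneg _ _ _ _ _) (hcf η)
    have h2 : WR μ s S₁ η a l y / cS μ s S₁ η a l ≤ 1 := by
      refine div_le_one_of_le₀ ?_ (hcf η)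
      rw [← hsumW η]
      exact Finset.single_le_sum (f := fun y => WR μ s S₁ η a l y) (fun y _ => WR_nonneg _ _ _ _ _) hy
    rw [hg]
    exact ⟨mul_nonneg (hι0 η) h1, (mul_le_mul (hι1 η) h2 h1 zero_le_one).trans (le_of_eq (one_mul 1))⟩
  have hgm : ∀ y, Measurable (g y) := fun y => by
    rw [hg]
    exact hιm.mul ((measurable_WR' _ a l y).div (measurable_cS S₁ a l))
  have hgS : ∀ y ∈ K, Sub (g y) := fun y hy => Sub_bdd (hgm y) fun η => by
    rw [abs_of_nonneg (hg01 y hy η).1]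
    exact (hg01 y hy η).2
  have hgd : ∀ y, DependsOn (g y) S' := by
    intro y η η' h
    have h1 : ι η = ι η' := hιd fun p hp => h p (by rw [hS']; exact Or.inl hp)
    have h2 : cS μ s S₁ η a l = cS μ s S₁ η' a l := cS_dep (μ := μ) S₁ a l fun p hp => h p (by rw [hS']; exact Or.inr hp)
    have h3 : WR μ s S₁ η a l y = WR μ s S₁ η' a l y :=
      WR_dep (μ := μ) (s := s) S₁ a l y fun p hp => h p (by rw [hS']; exact Or.inr ⟨hp.2, hp.1.1, hp.1.2.1⟩)
    rw [hg]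
    show ι η * (WR μ s S₁ η a l y / cS μ s S₁ η a l) = ι η' * (WR μ s S₁ η' a l y / cS μ s S₁ η' a l)
    rw [h1, h2, h3]
  have hFS : ∀ y ∈ K, Sub (F y) := fun y hy => by
    rw [hF]
    obtain ⟨h1, h2, h3⟩ := hKI y hy
    obtain ⟨h4, h5, -⟩ := hend y h1 h2 h3
    exact Sub_Xp _ h4 h5
  have hFd : ∀ y, DependsOn (F y) (rows (a.1 + l) (a.1 + l + t)) := by
    intro y η η' h
    have h1 : X μ s η (a.1 + l, a.2 + y) t (z - y) = X μ s η' (a.1 + l, a.2 + y) t (z - y) :=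
      X_dep_rows (μ := μ) (s := s) (a.1 + l, a.2 + y) t (z - y) h
    rw [hF]
    show max (X μ s η (a.1 + l, a.2 + y) t (z - y)) 0 = max (X μ s η' (a.1 + l, a.2 + y) t (z - y)) 0
    rw [h1]
  have hdis : Disjoint S' (rows (a.1 + l) (a.1 + l + t)) := by
    rw [Set.disjoint_left]
    intro p hp hp2
    rw [hS'] at hp
    have h1 : a.1 + l < p.1 := hp2.1
    rcases hp with h2 | h2
    · have := hS p h2
      omega
    · have : p.1 ≤ a.1 + l := h2.2.2
      omega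
  have hint : ∀ y ∈ K, Integrable (fun η => g y η * F y η) (law μ) := fun y hy =>
    Sub.mul_integrable hEM (hgS y hy) (hFS y hy)
  rw [← hι]
  simp only [he]
  refine ⟨integrable_finsetSum _ hint, ?_⟩
  rw [integral_finsetSum _ hint]
  have h1 : ∀ y ∈ K, ∫ η, g y η * F y η ∂(law μ) ≤ B * ∫ η, g y η ∂(law μ) := by
    intro y hy
    obtain ⟨h1, h2, h3⟩ := hKI y hy
    obtain ⟨h4, h5, h6⟩ := hend y h1 h2 h3
    rw [integral_indep (hgm y) (hFS y hy).1 (hgd y) (hFd y) hdis, mul_comm]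
    refine mul_le_mul_of_nonneg_right ?_ (integral_nonneg fun η => (hg01 y hy η).1)
    refine le_trans (le_of_eq ?_) h6
    rw [hF]
    exact integral_Xp _ _ _
  refine (Finset.sum_le_sum h1).trans ?_
  rw [← Finset.mul_sum, ← integral_finsetSum _ fun y hy => (hgS y hy).integrable hEM]
  refine mul_le_mul_of_nonneg_left ?_ hB
  have h2 : ∀ η, ∑ y ∈ K, g y η ≤ ι η := by
    intro η
    rw [hg]
    show ∑ y ∈ K, ι η * (WR μ s S₁ η a l y / cS μ s S₁ η a l) ≤ ι η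
    rw [← Finset.mul_sum, ← Finset.sum_div, hsumW]
    have := mul_le_mul_of_nonneg_left (div_self_le_one (cS μ s S₁ η a l)) (hι0 η)
    linarith
  have h3 : ∫ η, ι η ∂(law μ) = (law μ).real A := by
    rw [hι, integral_indicator hA]
    simp [Measure.real]
  rw [← h3]
  refine integral_mono (integrable_finsetSum _ fun y hy => (hgS y hy).integrable hEM) ?_ h2
  have h4 : Sub ι := Sub_bdd hιm fun η => by
    rw [abs_of_nonneg (hι0 η)]
    exact hι1 η
  exact h4.integrable hEM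

/-- (3a), MARKOV. -/
theorem CQ_markov (hEM : Pool.Agent.W_7d29a1_h47.EM μ) {S₁ : Set Pt} {r : ℝ} (hr : 0 ≤ r) {a : Pt} (hS₁ : S₁ ⊆ St μ s r a)
    (l t : ℕ) (z : ℤ) {B : ℝ} (hB : 0 ≤ B)
    (hend : ∀ y : ℤ, 0 ≤ y → y ≤ l → |(y : ℝ) - sl μ s * l| ≤ r → 0 ≤ z - y ∧ z - y ≤ t ∧ ep μ s t (z - y) ≤ B)
    {S : Set Pt} (hS : ∀ p ∈ S, p.1 ≤ a.1 + l) {A : Set Env} (hA : MeasurableSet A)
    (hAd : ∀ η η' : Env, (∀ p ∈ S, η p = η' p) → (η ∈ A ↔ η' ∈ A)) {u : ℝ} (hu : 0 < u) :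
    (law μ).real (A ∩ {η | u < CQ μ s S₁ η a l t z}) ≤ B / u * (law μ).real A := by
  obtain ⟨hi, hm⟩ := CQ_mean (μ := μ) hEM hr hS₁ l t z hB hend hS hA hAd
  have h1 := mul_meas_ge_le_integral_of_nonneg (μ := law μ)
    (f := fun η => A.indicator (fun _ => (1 : ℝ)) η * CQ μ s S₁ η a l t z)
    (ae_of_all _ fun η => mul_nonneg (Set.indicator_nonneg (fun _ _ => zero_le_one) η) (CQ_nonneg S₁ η a l t z)) hi u
  have h2 : (law μ).real (A ∩ {η | u < CQ μ s S₁ η a l t z}) ≤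
      (law μ).real {η | u ≤ A.indicator (fun _ => (1 : ℝ)) η * CQ μ s S₁ η a l t z} := by
    refine measureReal_mono (fun η hη => ?_) (measure_ne_top _ _)
    rw [Set.mem_ofPred_eq, Set.indicator_of_mem hη.1, one_mul]
    exact le_of_lt hη.2
  have h3 : u * (law μ).real {η | u ≤ A.indicator (fun _ => (1 : ℝ)) η * CQ μ s S₁ η a l t z} ≤ B * (law μ).real A := by
    refine le_trans ?_ hm
    simpa [Measure.real] using h1
  have h4 := mul_le_mul_of_nonneg_left h2 hu.le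
  rw [div_mul_eq_mul_div, le_div_iff₀ hu, mul_comm]
  linarith

/-- Independence of two events. -/
theorem real_inter_indep {A A' : Set Env} (hA : MeasurableSet A) (hA' : MeasurableSet A') {S S' : Set Pt}
    (hAd : ∀ η η' : Env, (∀ p ∈ S, η p = η' p) → (η ∈ A ↔ η' ∈ A))
    (hAd' : ∀ η η' : Env, (∀ p ∈ S', η p = η' p) → (η ∈ A' ↔ η' ∈ A')) (hd : Disjoint S S') :
    (law μ).real (A ∩ A') = (law μ).real A * (law μ).real A' := by
  classical
  have hdep : ∀ {B : Set Env} {T : Set Pt}, (∀ η η' : Env, (∀ p ∈ T, η p = η' p) → (η ∈ B ↔ η' ∈ B)) →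
      DependsOn (B.indicator fun _ => (1 : ℝ)) T := by
    intro B T hB η η' h
    by_cases h1 : η ∈ B
    · rw [Set.indicator_of_mem h1, Set.indicator_of_mem ((hB η η' h).1 h1)]
    · rw [Set.indicator_of_notMem h1, Set.indicator_of_notMem fun h2 => h1 ((hB η η' h).2 h2)]
  have h1 := integral_indep (μ := μ) (f := A.indicator fun _ => (1 : ℝ)) (g := A'.indicator fun _ => (1 : ℝ))
    (measurable_const.indicator hA) (measurable_const.indicator hA') (hdep hAd) (hdep hAd') hd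
  have h2 : ∀ {B : Set Env}, MeasurableSet B → ∫ η, B.indicator (fun _ => (1 : ℝ)) η ∂(law μ) = (law μ).real B := by
    intro B hB
    rw [integral_indicator hB]
    simp [Measure.real]
  rw [h2 hA, h2 hA'] at h1
  rw [← h1, ← h2 (hA.inter hA')]
  refine integral_congr_ae (ae_of_all _ fun η => ?_)
  show (A ∩ A').indicator (fun _ => (1 : ℝ)) η = A.indicator (fun _ => (1 : ℝ)) η * A'.indicator (fun _ => (1 : ℝ)) η
  by_cases h3 : η ∈ A
  · by_cases h4 : η ∈ A'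
    · rw [Set.indicator_of_mem h3, Set.indicator_of_mem h4, mul_one]
      exact Set.indicator_of_mem (show η ∈ A ∩ A' from ⟨h3, h4⟩) _
    · rw [Set.indicator_of_notMem h4, mul_zero]
      exact Set.indicator_of_notMem (fun h5 => h4 h5.2) _
  · rw [Set.indicator_of_notMem h3, zero_mul]
    exact Set.indicator_of_notMem (fun h5 => h3 h5.1) _

/-- Step 2 in the form of the interface. -/
theorem strip_of (h : In μ s c C n₀) : ∃ R₁ : ℝ, 1 ≤ R₁ ∧ Strip μ s R₁ := strip0 h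

/-- (3a), THE LUCKY SIDE: the polymer from `(0, L)` profits from a luck of the sites `S` of the rows `(2 r, 2 r + k]`
near its straight line, up to `b` units of the scale `m`, except for a conditional probability `4 C / b`. -/
theorem luck_side (h : In μ s c C n₀) : ∃ n₁ : ℕ, ∀ m, n₁ ≤ m → ∀ (r k : ℕ) (L : ℤ) (S : Set Pt) (G₁ : Set Env),
    8 * r ≤ m → k ≤ r → |(L : ℝ)| ≤ c * wd μ s m / 8 →
    (∀ p ∈ S, 2 * (r : ℤ) < p.1 ∧ p.1 ≤ 2 * (r : ℤ) + k ∧
      |(p.2 : ℝ) - ((md μ s (2 * r) : ℝ) + L) - sl μ s * ((p.1 : ℝ) - 2 * r)| ≤ c * wd μ s m / 8) →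
    MeasurableSet G₁ → (∀ η η' : Env, (∀ p ∈ S, η p = η' p) → (η ∈ G₁ ↔ η' ∈ G₁)) →
    (∀ η ∈ G₁, 0 < ∑ y ∈ Finset.Icc (0 : ℤ) k, WR μ s S η (2 * (r : ℤ), md μ s (2 * r) + L) k y) →
    ∀ b : ℝ, 1 ≤ b → ∀ n, m ≤ n →
      (law μ).real (G₁ ∩ {η | V μ s η ((0 : ℤ), L) n <
        Real.log (∑ y ∈ Finset.Icc (0 : ℤ) k, WR μ s S η (2 * (r : ℤ), md μ s (2 * r) + L) k y) +
          V μ s η ((m : ℤ), md μ s m) (n - m) - b * EE μ s m}) ≤ 4 * C / b * (law μ).real G₁ := by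
  have hc0 := h.c0
  have hc1 := h.c1
  have hC1 := h.C1
  have hC0 : 0 < C := lt_of_lt_of_le one_pos hC1
  have hs0 := h.sl_pos
  have hs1 := h.sl_lt
  obtain ⟨σ, hσ⟩ : ∃ σ : ℝ, σ = min (sl μ s) (1 - sl μ s) := ⟨_, rfl⟩
  have hσ0 : 0 < σ := by rw [hσ]; exact lt_min hs0 (by linarith)
  have hσ1 : σ ≤ sl μ s := hσ ▸ min_le_left _ _
  have hσ2 : σ ≤ 1 - sl μ s := hσ ▸ min_le_right _ _
  obtain ⟨n₂, hn₂⟩ := eventually_atTop.1 (h.tv.eventually_le_const hσ0)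
  obtain ⟨n₄, hn₄⟩ := exists_nat_ge (4 / σ)
  refine ⟨max (max n₀ n₂) (max n₄ 1), fun m hm r k L S G₁ hr hk hL hS hGm hGd hG b hb n hn => ?_⟩
  have hm0 : n₀ ≤ m := (le_max_left _ _).trans ((le_max_left _ _).trans hm)
  have hm2 : n₂ ≤ m := (le_max_right _ _).trans ((le_max_left _ _).trans hm)
  have hm4 : n₄ ≤ m := (le_max_left _ _).trans ((le_max_right _ _).trans hm)
  have hm1 : 1 ≤ m := (le_max_right _ _).trans ((le_max_right _ _).trans hm)
  have hv2 := hn₂ m hm2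
  have hv0 : 0 ≤ vA 1 μ s m := h.vA_nonneg m
  have hE : 0 < EE μ s m := EE_pos m
  have hb0 : 0 < b := lt_of_lt_of_le one_pos hb
  have hm1' : (1 : ℝ) ≤ m := by exact_mod_cast hm1
  have hmσ : 4 ≤ σ * m := by
    have h1 : 4 / σ ≤ (m : ℝ) := hn₄.trans (by exact_mod_cast hm4)
    rw [div_le_iff₀ hσ0] at h1
    linarith
  have hr' : 8 * (r : ℝ) ≤ m := by exact_mod_cast hr
  have hk' : (k : ℝ) ≤ r := by exact_mod_cast hk
  have hk0 : (0 : ℝ) ≤ k := Nat.cast_nonneg k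
  have hw : wd μ s m = m * vA 1 μ s m := rfl
  have hw0 : 0 ≤ wd μ s m := h.wd_nonneg m
  have hwm : c * wd μ s m ≤ σ * m := by
    have h1 : (m : ℝ) * vA 1 μ s m ≤ m * σ := mul_le_mul_of_nonneg_left hv2 (by linarith)
    have h2 : c * wd μ s m ≤ 1 * wd μ s m := mul_le_mul_of_nonneg_right hc1 hw0
    rw [hw] at h2 ⊢
    linarith
  -- the numbers
  obtain ⟨t, ht⟩ : ∃ t : ℕ, m = 2 * r + (k + t) := ⟨m - (2 * r + k), by omega⟩
  obtain ⟨n₃, hn₃⟩ : ∃ n₃ : ℕ, n = m + n₃ := ⟨n - m, by omega⟩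
  obtain ⟨d, hd⟩ : ∃ d : ℤ, d = md μ s (2 * r) := ⟨_, rfl⟩
  have hd0 : 0 ≤ d := hd ▸ h.md_nonneg (2 * r)
  have hd1 : d ≤ ((2 * r : ℕ) : ℤ) := hd ▸ h.md_le_nat (2 * r)
  have hd2 : (d : ℝ) ≤ sl μ s * (2 * r) := by
    have h1 := md_le (μ := μ) (s := s) (2 * r)
    rw [← hd] at h1
    push_cast at h1
    exact h1
  have hd3 : sl μ s * (2 * r) < d + 1 := by
    have h1 := lt_md (μ := μ) (s := s) (2 * r)
    rw [← hd] at h1
    push_cast at h1
    exact h1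
  rw [← hd] at hS hG ⊢
  obtain ⟨M, hM⟩ : ∃ M : ℤ, M = md μ s m := ⟨_, rfl⟩
  have hM1 : (M : ℝ) ≤ sl μ s * m := hM ▸ md_le m
  have hM2 : sl μ s * m < M + 1 := hM ▸ lt_md m
  rw [← hM]
  obtain ⟨z, hz⟩ : ∃ z : ℤ, z = M - (d + L) := ⟨_, rfl⟩
  obtain ⟨a, ha⟩ : ∃ a : Pt, a = (2 * (r : ℤ), d + L) := ⟨_, rfl⟩
  have ht' : (m : ℝ) = 2 * r + (k + t) := by exact_mod_cast ht
  obtain ⟨ρ, hρ⟩ : ∃ ρ : ℝ, ρ = c * wd μ s m / 8 := ⟨_, rfl⟩
  have hρ0 : 0 ≤ ρ := by rw [hρ]; positivity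
  have hSa : S ⊆ St μ s ρ a := by
    intro p hp
    obtain ⟨h1, h2, h3⟩ := hS p hp
    show |((p.2 - a.2 : ℤ) : ℝ) - sl μ s * ((p.1 - a.1 : ℤ) : ℝ)| ≤ ρ
    rw [ha, hρ]
    push_cast
    exact h3
  have hSa2 : ∀ p ∈ S, p.1 ≤ a.1 + k := fun p hp => by
    rw [ha]
    exact (hS p hp).2.1
  -- the ways from the end of `S` to `(m, M)`
  have hend : ∀ y : ℤ, 0 ≤ y → y ≤ k → |(y : ℝ) - sl μ s * k| ≤ ρ →
      0 ≤ z - y ∧ z - y ≤ t ∧ ep μ s t (z - y) ≤ C * EE μ s m := by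
    intro y _ _ hy
    have hLL := abs_le.1 hL
    have hyy := abs_le.1 hy
    have htm : 5 * (m : ℝ) / 8 ≤ t := by linarith
    have hzr : (z : ℝ) = M - (d + L) := by
      rw [hz]
      push_cast
      ring
    have hsm : sl μ s * m = sl μ s * (2 * r) + sl μ s * k + sl μ s * t := by
      rw [ht']
      ring
    have h1 : |((z - y : ℤ) : ℝ) - sl μ s * (t : ℝ)| ≤ c * wd μ s m / 4 + 1 := by
      rw [Int.cast_sub, hzr, abs_le]
      rw [hρ] at hyy
      constructor <;> linarith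
    have h2 := abs_le.1 h1
    have hσt : σ * (5 * (m : ℝ) / 8) ≤ σ * t := mul_le_mul_of_nonneg_left htm hσ0.le
    have ht0 : (0 : ℝ) ≤ t := Nat.cast_nonneg t
    have hst : σ * t ≤ sl μ s * t := mul_le_mul_of_nonneg_right hσ1 ht0
    have hst' : σ * t ≤ (1 - sl μ s) * t := mul_le_mul_of_nonneg_right hσ2 ht0
    have h3 : (0 : ℝ) ≤ ((z - y : ℤ) : ℝ) := by linarith
    have h4 : ((z - y : ℤ) : ℝ) ≤ (t : ℝ) := by linarith
    have h5 : 0 ≤ z - y := by exact_mod_cast h3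
    have h6 : z - y ≤ (t : ℤ) := by exact_mod_cast h4
    refine ⟨h5, h6, h.inn m hm0 t (z - y) (by omega) h5 h6 (h1.trans ?_)⟩
    have h7 : c * wd μ s m / 4 ≤ c * vA 1 μ s m * t := by
      have h8 : c * vA 1 μ s m * (5 * (m : ℝ) / 8) ≤ c * vA 1 μ s m * t := mul_le_mul_of_nonneg_left htm (by positivity)
      have h9 : 0 ≤ c * vA 1 μ s m * m := by positivity
      rw [hw]
      linarith
    linarith
  -- the first bad event
  have hX1 : ep μ s (2 * r) d ≤ C * EE μ s m := by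
    refine h.inn m hm0 (2 * r) d (by omega) hd0 hd1 ?_
    have h1 : |(d : ℝ) - sl μ s * ((2 * r : ℕ) : ℝ)| ≤ 1 := by
      push_cast
      rw [abs_le]
      constructor <;> linarith
    have h2 : 0 ≤ c * vA 1 μ s m * ((2 * r : ℕ) : ℝ) := by positivity
    linarith
  obtain ⟨u, hu⟩ : ∃ u : ℝ, u = b * EE μ s m / 2 := ⟨_, rfl⟩
  have hu0 : 0 < u := by rw [hu]; positivity
  have hBu : C * EE μ s m / u = 2 * C / b := by
    rw [hu]
    field_simp
  obtain ⟨A₁, hA₁⟩ : ∃ A₁ : Set Env, A₁ = {η | u < X μ s η ((0 : ℤ), L) (2 * r) d} := ⟨_, rfl⟩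
  have hA₁m : MeasurableSet A₁ := by rw [hA₁]; exact measurableSet_lt measurable_const (measurable_X _ _ _)
  have hA₁p : (law μ).real A₁ ≤ 2 * C / b := by
    have hS1 : Sub fun η => max (X μ s η ((0 : ℤ), L) (2 * r) d) 0 := Sub_Xp _ hd0 hd1
    have h1 := mul_meas_ge_le_integral_of_nonneg (μ := law μ)
      (f := fun η => max (X μ s η ((0 : ℤ), L) (2 * r) d) 0) (ae_of_all _ fun η => le_max_right _ _)
      (hS1.integrable h.em) u
    have h2 : (law μ).real A₁ ≤ (law μ).real {η | u ≤ max (X μ s η ((0 : ℤ), L) (2 * r) d) 0} := by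
      refine measureReal_mono (fun η hη => ?_) (measure_ne_top _ _)
      rw [hA₁] at hη
      rw [Set.mem_ofPred_eq] at hη ⊢
      exact le_max_of_le_left hη.le
    have h3 : ∫ η, max (X μ s η ((0 : ℤ), L) (2 * r) d) 0 ∂(law μ) ≤ C * EE μ s m := by
      rw [integral_Xp]
      exact hX1
    have h4 : u * (law μ).real {η | u ≤ max (X μ s η ((0 : ℤ), L) (2 * r) d) 0} ≤ C * EE μ s m := by
      refine le_trans ?_ h3
      simpa [Measure.real] using h1
    rw [← hBu, le_div_iff₀ hu0, mul_comm]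
    have h5 := mul_le_mul_of_nonneg_left h2 hu0.le
    linarith
  have hA₁G : (law μ).real (G₁ ∩ A₁) ≤ 2 * C / b * (law μ).real G₁ := by
    rw [real_inter_indep hGm hA₁m hGd (S' := rows 0 (2 * r)) ?_ ?_, mul_comm]
    · exact mul_le_mul_of_nonneg_right hA₁p measureReal_nonneg
    · intro η η' hh
      have h1 : X μ s η ((0 : ℤ), L) (2 * r) d = X μ s η' ((0 : ℤ), L) (2 * r) d := by
        refine X_dep_rows (μ := μ) (s := s) ((0 : ℤ), L) (2 * r) d fun p hp => hh p ?_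
        refine ⟨hp.1, ?_⟩
        have := hp.2
        push_cast at this
        simpa using this
      rw [hA₁, Set.mem_ofPred_eq, Set.mem_ofPred_eq, h1]
    · rw [Set.disjoint_left]
      intro p hp hp2
      have h1 := (hS p hp).1
      have h2 : p.1 ≤ 2 * (r : ℤ) := hp2.2
      omega
  -- the second bad event
  have hA₂ := CQ_markov (μ := μ) h.em (S₁ := S) hρ0 hSa k t z (by positivity) hend hSa2 hGm hGd hu0
  rw [hBu] at hA₂
  -- the union
  have hsub : G₁ ∩ {η | V μ s η ((0 : ℤ), L) n <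
        Real.log (∑ y ∈ Finset.Icc (0 : ℤ) k, WR μ s S η (2 * (r : ℤ), d + L) k y) +
          V μ s η ((m : ℤ), M) (n - m) - b * EE μ s m} ⊆
      (G₁ ∩ A₁) ∪ (G₁ ∩ {η | u < CQ μ s S η a k t z}) := by
    intro η hη
    obtain ⟨hη1, hη2⟩ := hη
    rw [Set.mem_ofPred_eq] at hη2
    by_contra hcon
    rw [Set.mem_union, not_or] at hcon
    have c1 : X μ s η ((0 : ℤ), L) (2 * r) d ≤ u := by
      by_contra h1
      exact hcon.1 ⟨hη1, by rw [hA₁]; exact not_le.1 h1⟩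
    have c2 : CQ μ s S η a k t z ≤ u := by
      by_contra h1
      exact hcon.2 ⟨hη1, not_le.1 h1⟩
    have hpos := hG η hη1
    have e1 : (((0 : ℤ), L) : Pt).1 + ((2 * r : ℕ) : ℤ) = 2 * (r : ℤ) := by push_cast; ring
    have e2 : (((0 : ℤ), L) : Pt).2 + d = d + L := by
      show L + d = d + L
      ring
    have h1 := luck_det (μ := μ) (S := S) hρ0 η ((0 : ℤ), L) (t₁ := 2 * r) (y₁ := d) hd0
      hd1 (by rw [e1, e2, ← ha]; exact hSa) k t n₃ z
      (fun y hy0 hy1 hy2 => ⟨(hend y hy0 hy1 hy2).1, (hend y hy0 hy1 hy2).2.1⟩) (by rw [e1, e2]; exact hpos)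
    rw [e1, e2] at h1
    have e3 : ((2 * (r : ℤ) + (k : ℤ) + (t : ℤ), d + L + z) : Pt) = ((m : ℤ), M) := by
      refine Prod.ext ?_ ?_
      · show 2 * (r : ℤ) + (k : ℤ) + (t : ℤ) = (m : ℤ)
        omega
      · show d + L + z = M
        rw [hz]
        ring
    have e4 : 2 * r + (k + (t + n₃)) = n := by omega
    have e5 : n - m = n₃ := by omega
    rw [e3, e4] at h1
    rw [e5] at hη2
    rw [ha] at c2
    have e6 : Real.log (cS μ s S η (2 * (r : ℤ), d + L) k) =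
      Real.log (∑ y ∈ Finset.Icc (0 : ℤ) k, WR μ s S η (2 * (r : ℤ), d + L) k y) := rfl
    rw [e6] at h1
    have e7 : b * EE μ s m = 2 * u := by rw [hu]; ring
    rw [e7] at hη2
    linarith
  have h1 := measureReal_mono hsub (measure_ne_top (law μ) _)
  have h2 := measureReal_union_le (μ := law μ) (G₁ ∩ A₁) (G₁ ∩ {η | u < CQ μ s S η a k t z})
  have h3 : 4 * C / b * (law μ).real G₁ = 2 * C / b * (law μ).real G₁ + 2 * C / b * (law μ).real G₁ := by ring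
  linarith

end

end Pool.Agent.W_7d29a1_HL
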