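import Pool.Agent.W_7d29a1_HS.Scale
import Pool.Agent.W_7d29a1_H.FrTH4
import Pool.Agent.W_7d29a1_HS.Lane
import Pool.Agent.W_7d29a1_HS.Rec

/-!
MP_7d29a1_pr, TRACK H, part 4, at one tilt `s`: the bad events of the scale `r` (tilted weights, cheap displacements, straight paths in a
narrow strip). (Model: `W_7d29a1_SL.SepBad`.) (helper4)
-/

set_option autoImplicit false

namespace Pool.Agent.W_7d29a1_HL

open MeasureTheory ProbabilityTheory Filter Topology
open Pool.Agent.W_7d29a1_F Pool.Agent.W_7d29a1_h4g Pool.Agent.W_7d29a1_H Pool.Agent.W_7d29a1_HS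
open Pool.Agent.W_7d29a1_L (Mh T kap Bx mem_Bx exp_T le_Mh Sub_Mh)

variable {μ : Measure ℝ} {s c C : ℝ} {n₀ : ℕ}

theorem W_le_tilt (v h : ℝ) (η : Env) (a : Pt) (n : ℕ) (y : ℤ) :
    W μ s η a n y ≤ Real.exp (T μ s v h η a n - h * ((y : ℝ) - v * n)) := by
  by_cases hy : 0 ≤ y ∧ y ≤ n
  · have h1 := exp_T (μ := μ) (s := s) (v := v) (h := h) η a n
    have h2 : W μ s η a n y * Real.exp (h * ((y : ℝ) - v * n)) ≤ Real.exp (T μ s v h η a n) := by
      rw [h1]
      exact Finset.single_le_sum (f := fun y : ℤ => W μ s η a n y * Real.exp (h * ((y : ℝ) - v * n)))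
        (fun y _ => mul_nonneg (W_nonneg _ _ _ _) (Real.exp_nonneg _)) (Finset.mem_Icc.2 hy)
    rw [Real.exp_sub, le_div_iff₀ (Real.exp_pos _)]
    exact h2
  · rw [W_eq_zero η a hy]
    exact (Real.exp_pos _).le

variable [IsProbabilityMeasure μ]

/-- Far displacements of time at most `4 r` are expensive: tilt `c EE r / wd r`, both signs. -/
theorem tilt_bd2 (h : In μ s c C n₀) {ε : ℝ} (hε : 0 < ε) : ∃ b : ℝ, 1 ≤ b ∧ ∃ n₁ : ℕ, ∀ r : ℕ, n₁ ≤ r → ∀ k : ℕ, k ≤ 4 * r →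
    ∀ (y : ℤ) (g : ℝ), |g| = 1 → (law μ).real {η | Real.exp (b * EE μ s r - g * (c * EE μ s r / wd μ s r) *
      ((y : ℝ) - sl μ s * k)) < W μ s η 0 k y} ≤ ε := by
  have hc0 := h.c0
  have hC1 := h.C1
  have hC0 : 0 < C := lt_of_lt_of_le one_pos hC1
  obtain ⟨n₂, hw⟩ := (tendsto_atTop.1 (wd_tendsto h) 1).exists_forall_of_atTop
  obtain ⟨b, hb⟩ : ∃ b : ℝ, b = 1 + C * Real.log (C / ε + 1) := ⟨_, rfl⟩
  have hx1 : (1 : ℝ) ≤ C / ε + 1 := by
    have : 0 ≤ C / ε := by positivity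
    linarith
  have hb1 : 1 ≤ b := by
    rw [hb]
    have : 0 ≤ Real.log (C / ε + 1) := Real.log_nonneg hx1
    nlinarith
  refine ⟨b, hb1, max n₀ n₂, fun r hr k hk y g hg => ?_⟩
  have hw1 := hw r ((le_max_right _ _).trans hr)
  have hw0 : 0 < wd μ s r := by linarith
  have hE := EE_pos (μ := μ) (s := s) r
  obtain ⟨th, hth⟩ : ∃ th : ℝ, th = g * (c * EE μ s r / wd μ s r) := ⟨_, rfl⟩
  have hth0 : |th| = c * EE μ s r / wd μ s r := by
    rw [hth, abs_mul, hg, one_mul, abs_of_pos (by positivity)]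
  have hl := h.luck r ((le_max_left _ _).trans hr) th (-(wd μ s r / 2)) (by
    rw [hth0, div_mul_cancel₀ _ hw0.ne'])
  obtain ⟨M, hM⟩ : ∃ M : Env → ℝ, M = Mh μ s (sl μ s) th (wd μ s r) (-(wd μ s r / 2)) (4 * r) := ⟨_, rfl⟩
  have hl' : ∫ η, Real.exp (M η / (C * EE μ s r)) ∂(law μ) ≤ C := by rw [hM]; exact hl
  have hTM : ∀ η, T μ s (sl μ s) th η 0 k ≤ M η := by
    intro η
    rw [hM]
    exact T_le_Mh4 h.sl_pos.le h.sl_lt.le hw0 hk th η
  have hsub : {η | Real.exp (b * EE μ s r - g * (c * EE μ s r / wd μ s r) * ((y : ℝ) - sl μ s * k)) < W μ s η 0 k y} ⊆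
      {η | Real.exp (b / C) ≤ Real.exp (M η / (C * EE μ s r))} := by
    intro η hη
    rw [Set.mem_ofPred_eq] at hη ⊢
    have h1 := hη.trans_le (W_le_tilt (μ := μ) (s := s) (sl μ s) th η 0 k y)
    rw [Real.exp_lt_exp, ← hth] at h1
    rw [Real.exp_le_exp, div_le_div_iff₀ hC0 (by positivity)]
    have h2 : b * EE μ s r ≤ M η := by linarith [hTM η]
    nlinarith
  have hint : Integrable (fun η => Real.exp (M η / (C * EE μ s r))) (law μ) := by
    have h1 : Sub M := by rw [hM]; exact Sub_Mh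
    have h2 := (h1.const_mul (1 / (C * EE μ s r))).exp_int h.em
    refine h2.congr (Eventually.of_forall fun η => ?_)
    simp only
    congr 1
    ring
  have h3 := mul_meas_ge_le_integral_of_nonneg (μ := law μ) (f := fun η => Real.exp (M η / (C * EE μ s r)))
    (ae_of_all _ fun η => (Real.exp_pos _).le) hint (Real.exp (b / C))
  have h4 : Real.exp (b / C) * (law μ).real {η | Real.exp (b / C) ≤ Real.exp (M η / (C * EE μ s r))} ≤ C := by
    refine le_trans ?_ hl'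
    simpa [Measure.real] using h3
  have h5 : C / ε + 1 ≤ Real.exp (b / C) := by
    rw [← Real.log_le_iff_le_exp (by linarith), le_div_iff₀ hC0, hb]
    linarith
  have h6 : (law μ).real {η | Real.exp (b / C) ≤ Real.exp (M η / (C * EE μ s r))} ≤ ε := by
    have h7 : 0 ≤ (law μ).real {η | Real.exp (b / C) ≤ Real.exp (M η / (C * EE μ s r))} := measureReal_nonneg
    have h8 : (C / ε) * (law μ).real {η | Real.exp (b / C) ≤ Real.exp (M η / (C * EE μ s r))} ≤ C := by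
      refine le_trans (mul_le_mul_of_nonneg_right ?_ h7) h4
      linarith
    rw [div_mul_eq_mul_div, div_le_iff₀ hε] at h8
    nlinarith
  exact (measureReal_mono hsub (measure_ne_top _ _)).trans h6

/-- Far displacements to the right of time at most `4 r` are expensive: tilt `c EE r / wd r`. -/
theorem tilt_bd (h : In μ s c C n₀) {ε : ℝ} (hε : 0 < ε) : ∃ b : ℝ, 1 ≤ b ∧ ∃ n₁ : ℕ, ∀ r : ℕ, n₁ ≤ r → ∀ k : ℕ, k ≤ 4 * r →
    ∀ y : ℤ, (law μ).real {η | Real.exp (b * EE μ s r - c * EE μ s r / wd μ s r * ((y : ℝ) - sl μ s * k)) < W μ s η 0 k y} ≤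
      ε := by
  obtain ⟨b, hb, n₁, h1⟩ := tilt_bd2 h hε
  refine ⟨b, hb, n₁, fun r hr k hk y => ?_⟩
  have h2 := h1 r hr k hk y 1 abs_one
  rw [one_mul] at h2
  exact h2

/-- Cheap displacements (Markov). -/
theorem inn_bd (h : In μ s c C n₀) {r : ℕ} (hr : n₀ ≤ r) {k : ℕ} {y : ℤ} (hk : k ≤ 4 * r) (hy0 : 0 ≤ y) (hy1 : y ≤ k)
    (hy : |(y : ℝ) - sl μ s * k| ≤ c * vA 1 μ s r * k + 1) (a : Pt) {b : ℝ} (hb : 0 < b) :
    (law μ).real {η | b * EE μ s r ≤ X μ s η a k y} ≤ C / b := by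
  have hE := EE_pos (μ := μ) (s := s) r
  have h1 := h.inn r hr k y hk hy0 hy1 hy
  have hI : Integrable (fun η => max (X μ s η a k y) 0) (law μ) :=
    ((Sub_X (μ := μ) (s := s) a hy0 hy1).max (Sub.const 0)).integrable h.em
  have h2 : ∫ η, max (X μ s η a k y) 0 ∂(law μ) = ep μ s k y := by
    have e1 : ∀ η : Env, X μ s η a k y = X μ s (sh a η) 0 k y := by
      intro η
      rw [X_sh, zero_add]
    simp only [e1]
    have hm : Measurable fun η : Env => max (X μ s η 0 k y) 0 := (measurable_X 0 k y).max measurable_const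
    have h3 := (mp_sh (μ := μ) a).map_eq
    unfold ep
    conv_rhs => rw [← h3]
    rw [integral_map (mp_sh (μ := μ) a).measurable.aemeasurable hm.aestronglyMeasurable]
  have h3 := mul_meas_ge_le_integral_of_nonneg (μ := law μ) (f := fun η => max (X μ s η a k y) 0)
    (ae_of_all _ fun η => le_max_right _ _) hI (b * EE μ s r)
  have h4 : b * EE μ s r * (law μ).real {η | b * EE μ s r ≤ max (X μ s η a k y) 0} ≤ C * EE μ s r := by
    refine le_trans ?_ (h2.le.trans h1)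
    simpa [Measure.real] using h3
  have h5 : (law μ).real {η | b * EE μ s r ≤ X μ s η a k y} ≤ (law μ).real {η | b * EE μ s r ≤ max (X μ s η a k y) 0} :=
    measureReal_mono (fun η hη => by
      rw [Set.mem_ofPred_eq] at hη ⊢
      exact le_max_of_le_left hη) (measure_ne_top _ _)
  rw [le_div_iff₀ hb]
  have h6 : (law μ).real {η | b * EE μ s r ≤ X μ s η a k y} * b * EE μ s r ≤ C * EE μ s r := by
    have h7 := mul_le_mul_of_nonneg_left h5 (mul_pos hb hE).le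
    calc _ = b * EE μ s r * (law μ).real {η | b * EE μ s r ≤ X μ s η a k y} := by ring
      _ ≤ _ := h7
      _ ≤ _ := h4
  exact le_of_mul_le_mul_right h6 hE

/-- A straight path in a narrow strip: `q` blocks of duration `τ`. -/
theorem vert_bd (h : In μ s c C n₀) : ∃ R C' : ℝ, 0 ≤ R ∧ 0 < C' ∧ ∃ n₁ : ℕ, ∀ τ, n₁ ≤ τ → ∀ (q : ℕ) (a : Pt) (S : Set Pt),
    (∀ p : Pt, a.1 < p.1 → p.1 ≤ a.1 + (q * τ : ℕ) → |((p.2 : ℝ) - (a.2 : ℝ)) - sl μ s * ((p.1 : ℝ) - (a.1 : ℝ))| ≤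
      R * wd μ s τ + 2 → p ∈ S) → 1 ≤ q →
    (∀ η, 0 < WR μ s S η a (q * τ) (md μ s (q * τ))) ∧ ∀ b : ℝ, 0 < b →
      (law μ).real {η | WR μ s S η a (q * τ) (md μ s (q * τ)) < Real.exp (-(b * EE μ s τ))} ≤ q * C' / b := by
  obtain ⟨R, C', n₁, hR, hT⟩ := tubeIn_of h
  obtain ⟨n₂, hw⟩ := (tendsto_atTop.1 (wd_tendsto h) (1 / c)).exists_forall_of_atTop
  have hc0 := h.c0
  refine ⟨R, max C' 1, hR, by positivity, max (max n₁ n₂) 1, fun τ hτ q a S hS hq => ?_⟩
  have hτ1 : n₁ ≤ τ := ((le_max_left _ _).trans (le_max_left _ _)).trans hτ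
  have hτ2 : n₂ ≤ τ := ((le_max_right _ _).trans (le_max_left _ _)).trans hτ
  have hτ3 : 1 ≤ τ := (le_max_right _ _).trans hτ
  have hw1 := hw τ hτ2
  have hw2 : 1 ≤ c * wd μ s τ := by
    rw [div_le_iff₀ hc0] at hw1
    linarith
  have hE := EE_pos (μ := μ) (s := s) τ
  have hK := lane_mean (μ := μ) (s := s) h.em a (c := sl μ s) (D := R * wd μ s τ) (K := max C' 1 * EE μ s τ) hτ3
    h.sl_pos.le h.sl_lt.le (fun z hz0 hz1 hz => by
      have h1 := hT τ hτ1 z hz0 hz1 (hz.trans hw2)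
      exact ⟨h1.1, h1.2.trans (mul_le_mul_of_nonneg_right (le_max_left _ _) hE.le)⟩) q
  have hbp : Pool.Agent.W_7d29a1_HS.bp (sl μ s) τ q = md μ s (q * τ) := rfl
  rw [hbp] at hK
  obtain ⟨Tb, hTb⟩ : ∃ Tb : Set Pt, Tb = Pool.Agent.W_7d29a1_g.Tube a (sl μ s) (R * wd μ s τ + 2) := ⟨_, rfl⟩
  rw [← hTb] at hK
  have hle : ∀ η, WR μ s Tb η a (q * τ) (md μ s (q * τ)) ≤ WR μ s S η a (q * τ) (md μ s (q * τ)) := by
    intro η
    refine Pool.Agent.W_7d29a1_h10.WR_mono_on η a _ _ fun p hp hp1 hp2 => hS p hp1 hp2 ?_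
    rw [hTb] at hp
    unfold Pool.Agent.W_7d29a1_g.Tube at hp
    rw [Set.mem_ofPred_eq] at hp
    push_cast at hp
    exact hp
  refine ⟨fun η => (hK.1 η).trans_le (hle η), fun b hb => ?_⟩
  have hp := hK.2
  unfold pR at hp
  have hWs : ∀ η, WR μ s {p : Pt | p + a ∈ Tb} (sh a η) 0 (q * τ) (md μ s (q * τ)) =
      WR μ s Tb η a (q * τ) (md μ s (q * τ)) := by
    intro η
    have h1 := WR_sh (μ := μ) (s := s) Tb η 0 a (q * τ) (md μ s (q * τ))
    rw [zero_add] at h1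
    exact h1
  have hzr : 0 < Zr {p : Pt | p + a ∈ Tb} (sh a fun _ => 0) 0 (q * τ) (md μ s (q * τ)) := by
    have h1 := hK.1 fun _ => 0
    rw [← hWs] at h1
    unfold WR at h1
    exact (mul_pos_iff_of_pos_left (Real.exp_pos _)).1 h1
  have hpath : Pool.Agent.W_7d29a1_g.HasPath {p : Pt | p + a ∈ Tb} 0 (q * τ) (md μ s (q * τ)) :=
    Pool.Agent.W_7d29a1_h57g.hasPath_of_pos _ _ hzr
  have hI : Integrable (fun η => max (-Real.log (WR μ s Tb η a (q * τ) (md μ s (q * τ)))) 0) (law μ) := by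
    have h1 : Sub fun η => Real.log (WR μ s Tb η a (q * τ) (md μ s (q * τ))) := by
      have h2 := (hpath.sub (μ := μ) (s := s)).comp_sh a
      refine (congrArg Pool.Agent.W_7d29a1_F.Sub (funext fun η => ?_)).mp h2
      rw [hWs]
    exact (h1.neg.max (Sub.const 0)).integrable h.em
  have h3 := mul_meas_ge_le_integral_of_nonneg (μ := law μ)
    (f := fun η => max (-Real.log (WR μ s Tb η a (q * τ) (md μ s (q * τ)))) 0)
    (ae_of_all _ fun η => le_max_right _ _) hI (b * EE μ s τ)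
  have h4 : b * EE μ s τ * (law μ).real {η | b * EE μ s τ ≤ max (-Real.log (WR μ s Tb η a (q * τ) (md μ s (q * τ)))) 0} ≤
      q * (max C' 1 * EE μ s τ) := by
    refine le_trans ?_ hp
    simpa [Measure.real] using h3
  have h5 : (law μ).real {η | WR μ s S η a (q * τ) (md μ s (q * τ)) < Real.exp (-(b * EE μ s τ))} ≤
      (law μ).real {η | b * EE μ s τ ≤ max (-Real.log (WR μ s Tb η a (q * τ) (md μ s (q * τ)))) 0} := by
    refine measureReal_mono (fun η hη => ?_) (measure_ne_top _ _)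
    rw [Set.mem_ofPred_eq] at hη ⊢
    refine le_max_of_le_left ?_
    have h6 := (hle η).trans_lt hη
    have h7 := Real.log_lt_log (hK.1 η) h6
    rw [Real.log_exp] at h7
    linarith
  rw [le_div_iff₀ hb]
  have h6 : (law μ).real {η | WR μ s S η a (q * τ) (md μ s (q * τ)) < Real.exp (-(b * EE μ s τ))} * b * EE μ s τ ≤
      q * max C' 1 * EE μ s τ := by
    have h7 := mul_le_mul_of_nonneg_left h5 (mul_pos hb hE).le
    calc _ = b * EE μ s τ * (law μ).real {η | WR μ s S η a (q * τ) (md μ s (q * τ)) < Real.exp (-(b * EE μ s τ))} := by ring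
      _ ≤ _ := h7
      _ ≤ _ := h4
      _ = _ := by ring
  exact le_of_mul_le_mul_right h6 hE

end Pool.Agent.W_7d29a1_HL
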