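import Pool.Agent.W_7d29a1_HS.Scale

/-!
MP_7d29a1_pr, TRACK H, part 4: the interfaces of `W_7d29a1_SL` at the tilt `s`. (helper14)
-/

set_option autoImplicit false

namespace Pool.Agent.W_7d29a1_HL

open MeasureTheory ProbabilityTheory Filter Topology
open Pool.Agent.W_7d29a1_F Pool.Agent.W_7d29a1_h4g Pool.Agent.W_7d29a1_H Pool.Agent.W_7d29a1_HS

noncomputable section

/-- Lucky strips of fixed width. -/
def Strip (μ : Measure ℝ) (s R₁ : ℝ) : Prop :=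
  ∀ K : ℝ, ∃ p : ℝ, 0 < p ∧ ∃ n₁ : ℕ, ∀ n, n₁ ≤ n →
    p ≤ (law μ).real {η | K * EE μ s n ≤ Real.log (cf μ s (R₁ * wd μ s n) η 0 n)}

/-- THEOREM (SL). -/
def SL (μ : Measure ℝ) (s C₁ c₁ : ℝ) (n₁ : ℕ) : Prop :=
  ∀ m m', n₁ ≤ m → m ≤ m' → EE μ s m' ≤ C₁ * (wd μ s m' / wd μ s m) ^ (1 - c₁) * EE μ s m

end

end Pool.Agent.W_7d29a1_HL
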