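import Pool.Agent.W_7d29a1_HL.Defs

/-!
MP_7d29a1_pr, TRACK H, part 4: the rate function of the tilt `s` is superlinear, uniformly in the scale, on both sides.
(Model: `W_7d29a1_SL.N2`.) (helper14)
-/

set_option autoImplicit false

namespace Pool.Agent.W_7d29a1_HL

open MeasureTheory ProbabilityTheory Filter Topology
open Pool.Agent.W_7d29a1_F Pool.Agent.W_7d29a1_h4g Pool.Agent.W_7d29a1_H Pool.Agent.W_7d29a1_HS

variable {μ : Measure ℝ} [IsProbabilityMeasure μ] {s c C : ℝ} {n₀ : ℕ}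

/-- **(N2)**: `J` is superlinear, uniformly in the scale, on both sides. -/
theorem n2 (h : In μ s c C n₀) : ∃ K a v₀ : ℝ, 0 < K ∧ 0 < a ∧ a ≤ 1 ∧ 0 < v₀ ∧ v₀ < 1 / 2 ∧
    ∀ x R : ℝ, 1 ≤ R → |R * x| ≤ v₀ → R ^ (1 + a) * J μ s x ≤ K * J μ s (R * x) := by
  obtain ⟨ρ, δ, hρ0, hρ1, hδ, hs⟩ := h.sup
  obtain ⟨a, ha⟩ : ∃ a : ℝ, a = min (Real.logb 2 (1 / ρ)) 1 := ⟨_, rfl⟩
  have hl : 0 < Real.logb 2 (1 / ρ) := Real.logb_pos one_lt_two ((one_lt_div hρ0).2 hρ1)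
  have ha0 : 0 < a := by rw [ha]; exact lt_min hl one_pos
  have ha1 : a ≤ 1 := by rw [ha]; exact min_le_right _ _
  have h2a : (2 : ℝ) ^ (1 + a) ≤ 2 / ρ := by
    rw [Real.rpow_add two_pos, Real.rpow_one]
    have h1 : (2 : ℝ) ^ a ≤ 1 / ρ := by
      calc (2 : ℝ) ^ a ≤ (2 : ℝ) ^ (Real.logb 2 (1 / ρ)) :=
            Real.rpow_le_rpow_of_exponent_le one_le_two (by rw [ha]; exact min_le_left _ _)
        _ = 1 / ρ := Real.rpow_logb two_pos (by norm_num) (by positivity)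
    calc (2 : ℝ) * 2 ^ a ≤ 2 * (1 / ρ) := mul_le_mul_of_nonneg_left h1 two_pos.le
      _ = 2 / ρ := by ring
  have h2a' : (2 : ℝ) ^ (1 + a) ≤ 4 := by
    have h1 := Real.rpow_le_rpow_of_exponent_le (x := 2) one_le_two (show 1 + a ≤ 2 by linarith)
    have h2 : (2 : ℝ) ^ (2 : ℝ) = 4 := by
      rw [show (2 : ℝ) = ((2 : ℕ) : ℝ) by norm_num, Real.rpow_natCast]
      norm_num
    linarith
  -- iteration
  have hit : ∀ (k : ℕ) (x : ℝ), |2 ^ k * x| ≤ δ → (2 / ρ) ^ k * J μ s x ≤ J μ s (2 ^ k * x) := by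
    intro k
    induction k with
    | zero => intro x _; simp
    | succ k ih =>
      intro x hx
      have e : (2 : ℝ) ^ (k + 1) * x = 2 * (2 ^ k * x) := by ring
      have h1 : |(2 : ℝ) ^ k * x| ≤ δ := by
        have h2 : |(2 : ℝ) ^ (k + 1) * x| = 2 * |(2 : ℝ) ^ k * x| := by
          rw [e, abs_mul, abs_of_pos (two_pos (α := ℝ))]
        have h3 := abs_nonneg ((2 : ℝ) ^ k * x)
        linarith
      have h2 := ih x h1
      have h3 := hs (2 ^ (k + 1) * x) hx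
      have h4 : (2 : ℝ) ^ (k + 1) * x / 2 = 2 ^ k * x := by ring
      rw [h4] at h3
      have h5 : 2 / ρ * J μ s (2 ^ k * x) ≤ J μ s (2 ^ (k + 1) * x) := by
        rw [div_mul_eq_mul_div, div_le_iff₀ hρ0]
        linarith
      calc (2 / ρ) ^ (k + 1) * J μ s x = 2 / ρ * ((2 / ρ) ^ k * J μ s x) := by ring
        _ ≤ 2 / ρ * J μ s (2 ^ k * x) := mul_le_mul_of_nonneg_left h2 (by positivity)
        _ ≤ J μ s (2 ^ (k + 1) * x) := h5
  refine ⟨4, a, min δ (1 / 4), by norm_num, ha0, ha1, lt_min hδ (by norm_num), ?_, fun x R hR hx => ?_⟩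
  · have := min_le_right δ (1 / 4)
    linarith
  have hR0 : 0 < R := by linarith
  have hxδ : |R * x| ≤ δ := hx.trans (min_le_left _ _)
  obtain ⟨k, hk⟩ : ∃ k : ℕ, k = Nat.log 2 ⌊R⌋₊ := ⟨_, rfl⟩
  have hf : ⌊R⌋₊ ≠ 0 := by
    have : 1 ≤ ⌊R⌋₊ := Nat.le_floor (by exact_mod_cast hR)
    omega
  have h1 : (2 : ℝ) ^ k ≤ R := by
    have h2 : 2 ^ k ≤ ⌊R⌋₊ := by rw [hk]; exact Nat.pow_log_le_self 2 hf
    have h3 : ((2 ^ k : ℕ) : ℝ) ≤ (⌊R⌋₊ : ℝ) := by exact_mod_cast h2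
    have h4 := Nat.floor_le hR0.le
    push_cast at h3
    linarith
  have h2 : R ≤ (2 : ℝ) ^ (k + 1) := by
    have h3 : ⌊R⌋₊ < 2 ^ (k + 1) := by rw [hk]; exact Nat.lt_pow_succ_log_self one_lt_two _
    have h4 : ((⌊R⌋₊ + 1 : ℕ) : ℝ) ≤ ((2 ^ (k + 1) : ℕ) : ℝ) := by exact_mod_cast h3
    have h5 := Nat.lt_floor_add_one R
    push_cast at h4
    linarith
  have h3 : |(2 : ℝ) ^ k * x| ≤ δ := by
    have h4 : |(2 : ℝ) ^ k * x| ≤ |R * x| := by
      rw [abs_mul, abs_mul, abs_of_pos (by positivity : (0 : ℝ) < 2 ^ k), abs_of_pos hR0]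
      exact mul_le_mul_of_nonneg_right h1 (abs_nonneg x)
    linarith
  have h4 := hit k x h3
  -- `J (2 ^ k x) ≤ J (R x)`
  have h5 : J μ s (2 ^ k * x) ≤ J μ s (R * x) := by
    have h6 := h.rf.mul_le (t := 2 ^ k / R) (by positivity) ((div_le_one hR0).2 h1) (R * x)
    have h7 : 2 ^ k / R * (R * x) = 2 ^ k * x := by field_simp
    rw [h7] at h6
    exact h6.trans (mul_le_of_le_one_left (h.rf.nn _) ((div_le_one hR0).2 h1))
  have hJ := h.rf.nn x
  have h6 : R ^ (1 + a) ≤ 4 * (2 / ρ) ^ k := by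
    calc R ^ (1 + a) ≤ ((2 : ℝ) ^ (k + 1)) ^ (1 + a) := Real.rpow_le_rpow hR0.le h2 (by linarith)
      _ = ((2 : ℝ) ^ (1 + a)) ^ (k + 1) := by
          rw [← Real.rpow_natCast, ← Real.rpow_natCast, ← Real.rpow_mul two_pos.le, ← Real.rpow_mul two_pos.le, mul_comm]
      _ = (2 : ℝ) ^ (1 + a) * ((2 : ℝ) ^ (1 + a)) ^ k := by ring
      _ ≤ 4 * (2 / ρ) ^ k := by
          refine mul_le_mul h2a' ?_ (by positivity) (by norm_num)
          exact pow_le_pow_left₀ (by positivity) h2a k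
  calc R ^ (1 + a) * J μ s x ≤ 4 * (2 / ρ) ^ k * J μ s x := mul_le_mul_of_nonneg_right h6 hJ
    _ = 4 * ((2 / ρ) ^ k * J μ s x) := by ring
    _ ≤ 4 * J μ s (R * x) := mul_le_mul_of_nonneg_left (h4.trans h5) (by norm_num)

/-- **(N2)**, one sided forms with positive numbers (the form of `W_7d29a1_X40`). -/
theorem n2_side (h : In μ s c C n₀) : ∃ K a v₀ : ℝ, 0 < K ∧ 0 < a ∧ a ≤ 1 ∧ 0 < v₀ ∧ v₀ < 1 / 2 ∧
    ∀ v R : ℝ, 0 < v → 1 ≤ R → R * v ≤ v₀ →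
      R ^ (1 + a) * J μ s v ≤ K * J μ s (R * v) ∧ R ^ (1 + a) * J μ s (-v) ≤ K * J μ s (-(R * v)) := by
  obtain ⟨K, a, v₀, hK, ha, ha1, hv, hv1, hJ⟩ := n2 h
  refine ⟨K, a, v₀, hK, ha, ha1, hv, hv1, fun v R h0 hR hRv => ?_⟩
  have hp : 0 ≤ R * v := by positivity
  have h1 := hJ v R hR (by rw [abs_of_nonneg hp]; exact hRv)
  have h2 := hJ (-v) R hR (by rw [mul_neg, abs_neg, abs_of_nonneg hp]; exact hRv)
  rw [mul_neg] at h2
  exact ⟨h1, h2⟩

/-- Steep displacements are expensive, compared with the cone of the scale `n`. -/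
theorem cross (h : In μ s c C n₀) (Q : ℝ) : ∃ (A : ℝ) (n₁ : ℕ), 1 ≤ A ∧ 1 ≤ n₁ ∧ ∀ n, n₁ ≤ n → ∀ u : ℝ, A * vA 1 μ s n ≤ |u| →
    Q * (EE μ s n / n * |u|) ≤ J μ s u * vA 1 μ s n := by
  obtain ⟨K, a, v₀, hK, ha, -, hv₀, -, hJ⟩ := n2 h
  obtain ⟨Q', hQ'⟩ : ∃ Q' : ℝ, Q' = max Q 1 := ⟨_, rfl⟩
  have hQ0 : 0 < Q' := by rw [hQ']; exact lt_of_lt_of_le one_pos (le_max_right _ _)
  obtain ⟨A, hA⟩ : ∃ A : ℝ, A = max 1 ((K * Q') ^ (1 / a)) := ⟨_, rfl⟩
  have hA1 : 1 ≤ A := by rw [hA]; exact le_max_left _ _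
  have hA0 : 0 < A := by linarith
  have hAQ : K * Q' ≤ A ^ a := by
    have h1 : (K * Q') ^ (1 / a) ≤ A := by rw [hA]; exact le_max_right _ _
    have h2 := Real.rpow_le_rpow (Real.rpow_nonneg (by positivity) _) h1 ha.le
    rwa [← Real.rpow_mul (by positivity), one_div_mul_cancel ha.ne', Real.rpow_one] at h2
  obtain ⟨n₁, hn₁⟩ := eventually_atTop.1 (h.tv.eventually_lt_const (show 0 < v₀ / A by positivity))
  refine ⟨A, max n₁ 1, hA1, le_max_right _ _, fun n hn u hu => ?_⟩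
  have hn1 : 1 ≤ n := (le_max_right _ _).trans hn
  have hn0 : (0 : ℝ) < n := by exact_mod_cast hn1
  have hv := h.vA_pos hn1
  have hvA := hn₁ n ((le_max_left _ _).trans hn)
  rw [lt_div_iff₀ hA0] at hvA
  have hE := EE_pos (μ := μ) (s := s) n
  have hl0 : 0 < EE μ s n / n := by positivity
  -- the claim for `|u| ≤ v₀`
  have key : ∀ w : ℝ, A * vA 1 μ s n ≤ |w| → |w| ≤ v₀ → Q' * (EE μ s n / n * |w|) ≤ J μ s w * vA 1 μ s n := by
    intro w hw hw0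
    obtain ⟨R, hR⟩ : ∃ R : ℝ, R = |w| / vA 1 μ s n := ⟨_, rfl⟩
    have hRA : A ≤ R := by rw [hR, le_div_iff₀ hv]; exact hw
    have hR1 : 1 ≤ R := hA1.trans hRA
    have hR0 : 0 < R := by linarith
    have hwp : 0 < |w| := lt_of_lt_of_le (by positivity) hw
    have h1 : |w / R| = vA 1 μ s n := by
      rw [abs_div, abs_of_pos hR0, hR]
      field_simp
    have h2 := h.lev_le_J n h1.ge
    have h3 : R * (w / R) = w := by field_simp
    have h4 := hJ (w / R) R hR1 (by rw [h3]; exact hw0)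
    rw [h3, Real.rpow_add hR0, Real.rpow_one] at h4
    have h5 : K * Q' ≤ R ^ a := hAQ.trans (Real.rpow_le_rpow hA0.le hRA ha.le)
    have h6 : K * (Q' * (R * (EE μ s n / n))) ≤ K * J μ s w := by
      calc K * (Q' * (R * (EE μ s n / n))) = R * (K * Q') * (EE μ s n / n) := by ring
        _ ≤ R * R ^ a * (EE μ s n / n) :=
            mul_le_mul_of_nonneg_right (mul_le_mul_of_nonneg_left h5 hR0.le) hl0.le
        _ ≤ R * R ^ a * J μ s (w / R) := mul_le_mul_of_nonneg_left h2 (by positivity)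
        _ ≤ K * J μ s w := h4
    have h7 := le_of_mul_le_mul_left h6 hK
    have h8 : |w| = R * vA 1 μ s n := by rw [hR]; field_simp
    calc Q' * (EE μ s n / n * |w|) = Q' * (R * (EE μ s n / n)) * vA 1 μ s n := by rw [h8]; ring
      _ ≤ J μ s w * vA 1 μ s n := mul_le_mul_of_nonneg_right h7 hv.le
  have hup : 0 < |u| := lt_of_lt_of_le (by positivity) hu
  have hQQ : Q * (EE μ s n / n * |u|) ≤ Q' * (EE μ s n / n * |u|) := by
    refine mul_le_mul_of_nonneg_right ?_ (by positivity)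
    rw [hQ']
    exact le_max_left _ _
  refine hQQ.trans ?_
  rcases le_total |u| v₀ with h1 | h1
  · exact key u hu h1
  · -- `u = t w`, `|w| = v₀`
    obtain ⟨t, ht⟩ : ∃ t : ℝ, t = |u| / v₀ := ⟨_, rfl⟩
    have ht1 : 1 ≤ t := by rw [ht]; exact (one_le_div hv₀).2 h1
    have ht0 : 0 < t := by linarith
    have h2 : |u / t| = v₀ := by
      rw [abs_div, abs_of_pos ht0, ht]
      field_simp
    have h3 := key (u / t) (by rw [h2]; linarith) h2.le
    have h4 := h.rf.le_mul ht1 (u / t)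
    have h5 : t * (u / t) = u := by field_simp
    rw [h5] at h4
    have h6 : |u| = t * v₀ := by rw [ht]; field_simp
    rw [h2] at h3
    calc Q' * (EE μ s n / n * |u|) = t * (Q' * (EE μ s n / n * v₀)) := by rw [h6]; ring
      _ ≤ t * (J μ s (u / t) * vA 1 μ s n) := mul_le_mul_of_nonneg_left h3 ht0.le
      _ = t * J μ s (u / t) * vA 1 μ s n := by ring
      _ ≤ J μ s u * vA 1 μ s n := mul_le_mul_of_nonneg_right h4 hv.le

/-- Crossing a width in a short time is expensive (any direction). -/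
theorem crossing' (h : In μ s c C n₀) (Q : ℝ) :
    ∃ δ : ℝ, 0 < δ ∧ ∃ n₁ : ℕ, ∀ n, n₁ ≤ n → ∀ m : ℕ, 1 ≤ m → (m : ℝ) ≤ δ * n → ∀ z : ℝ, wd μ s n ≤ |z| →
      Q * (EE μ s n * |z|) ≤ m * J μ s (z / m) * wd μ s n := by
  obtain ⟨A, n₁, hA, hn₁, hc⟩ := cross h Q
  have hA0 : 0 < A := by linarith
  refine ⟨1 / A, by positivity, n₁, fun n hn m hm hmn z hz => ?_⟩
  have hn1 : 1 ≤ n := hn₁.trans hn
  have hn0 : (0 : ℝ) < n := by exact_mod_cast hn1
  have hm0 : (0 : ℝ) < m := by exact_mod_cast hm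
  have hv := h.vA_pos hn1
  have h1 : A * m ≤ n := by
    rw [one_div, inv_mul_eq_div, le_div_iff₀ hA0] at hmn
    linarith
  have h2 : A * vA 1 μ s n ≤ |z / m| := by
    rw [abs_div, abs_of_pos hm0, le_div_iff₀ hm0]
    unfold wd at hz
    calc A * vA 1 μ s n * m = vA 1 μ s n * (A * m) := by ring
      _ ≤ vA 1 μ s n * n := mul_le_mul_of_nonneg_left h1 hv.le
      _ ≤ |z| := by linarith
  have h3 := hc n hn (z / m) h2
  have h4 := mul_le_mul_of_nonneg_left h3 (show (0 : ℝ) ≤ n * m by positivity)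
  rw [abs_div, abs_of_pos hm0] at h4
  unfold wd
  calc Q * (EE μ s n * |z|) = (n * m) * (Q * (EE μ s n / n * (|z| / m))) := by field_simp
    _ ≤ (n * m) * (J μ s (z / m) * vA 1 μ s n) := h4
    _ = m * J μ s (z / m) * (n * vA 1 μ s n) := by ring

end Pool.Agent.W_7d29a1_HL
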