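import Pool.Agent.W_7d29a1_HL.SepDet
import Pool.Agent.W_7d29a1_HL.Defs

/-!
TRACK H, part 4 (model SL/SepLeft, author helper86), one tilt: the strip `Tu` and the line `ln` of the separation. (`left_n` is only
used by SL/Sep, which is not ported.) (helper71)
-/

set_option autoImplicit false

namespace Pool.Agent.W_7d29a1_HL

open MeasureTheory ProbabilityTheory Filter Topology
open Pool.Agent.W_7d29a1_F Pool.Agent.W_7d29a1_H Pool.Agent.W_7d29a1_HS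

variable {μ : Measure ℝ} {s : ℝ}

/-- The sites of the strip, which starts at `(2 r, md (2 r) + L)`. -/
def Tu (μ : Measure ℝ) (s : ℝ) (R : ℝ) (r τ : ℕ) (L : ℤ) : Set Pt :=
  {p | 2 * (r : ℤ) < p.1 ∧ p.1 ≤ 2 * (r : ℤ) + τ ∧
    |((p.2 : ℝ) - (md μ s (2 * r) + L)) - sl μ s * ((p.1 : ℝ) - 2 * r)| ≤ R}

/-- The line `u = L - D`. -/
noncomputable def ln (μ : Measure ℝ) (s : ℝ) (L D : ℤ) : ℤ → ℤ := fun t => ⌊sl μ s * t⌋ + (L - D)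

theorem ln_mono (h : 0 ≤ sl μ s) (L D t : ℤ) : ln μ s L D t ≤ ln μ s L D (t + 1) := by
  unfold ln
  have h1 : ⌊sl μ s * (t : ℝ)⌋ ≤ ⌊sl μ s * ((t + 1 : ℤ) : ℝ)⌋ := by
    refine Int.floor_le_floor ?_
    push_cast
    nlinarith
  omega

theorem ln_zero (r : ℕ) (L D : ℤ) : ln μ s L D (r : ℤ) = md μ s r + (L - D) := by
  unfold ln md
  push_cast
  rfl

theorem cf_eq_Tu [IsProbabilityMeasure μ] (R : ℝ) (r τ : ℕ) (L : ℤ) (η : Env) :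
    cf μ s R η (2 * (r : ℤ), md μ s (2 * r) + L) τ =
      ∑ y ∈ Finset.Icc (0 : ℤ) τ, WR μ s (Tu μ s R r τ L) η (2 * (r : ℤ), md μ s (2 * r) + L) τ y := by
  unfold cf
  refine Finset.sum_congr rfl fun y _ => WR_congr' η _ τ y fun p hp1 hp2 => ?_
  simp only at hp1 hp2
  show |((p.2 - (md μ s (2 * r) + L) : ℤ) : ℝ) - sl μ s * ((p.1 - 2 * (r : ℤ) : ℤ) : ℝ)| ≤ R ↔
    2 * (r : ℤ) < p.1 ∧ p.1 ≤ 2 * (r : ℤ) + τ ∧
      |((p.2 : ℝ) - (md μ s (2 * r) + L)) - sl μ s * ((p.1 : ℝ) - 2 * r)| ≤ R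
  push_cast
  exact ⟨fun h => ⟨hp1, hp2, h⟩, fun h => h.2.2⟩

theorem Tu_right {R : ℝ} {r τ : ℕ} {L D : ℤ} (hD : R + 1 < D) : ∀ p ∈ Tu μ s R r τ L, ln μ s L D p.1 < p.2 := by
  intro p hp
  obtain ⟨_, _, h3⟩ := hp
  rw [abs_le] at h3
  unfold ln
  have h4 : ((⌊sl μ s * (p.1 : ℝ)⌋ : ℤ) : ℝ) ≤ sl μ s * (p.1 : ℝ) := Int.floor_le _
  have h6 : sl μ s * ((2 * r : ℕ) : ℝ) - 1 < (md μ s (2 * r) : ℝ) := Int.sub_one_lt_floor _
  push_cast at h6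
  have h5 : (((⌊sl μ s * (p.1 : ℝ)⌋ + (L - D) : ℤ)) : ℝ) < ((p.2 : ℤ) : ℝ) := by
    push_cast
    linarith [h3.1]
  exact_mod_cast h5

/-- An event of a function which does not depend on `T`. -/
theorem dep_lt {f g : Env → ℝ} {A : Set Pt} (hf : DependsOn f A) (hg : DependsOn g A) :
    ∀ η η' : Env, (∀ p ∈ A, η p = η' p) → (η ∈ {η | f η < g η} ↔ η' ∈ {η | f η < g η}) := by
  intro η η' h
  rw [Set.mem_ofPred_eq, Set.mem_ofPred_eq, hf h, hg h]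

end Pool.Agent.W_7d29a1_HL
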